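import Pool.Agent.Lib.MP_305fdd_al.CZ.D.Main
import Pool.Agent.Lib.MP_305fdd_al.CZ.T.Stm

/-!
# MP_305fdd_al (`C_m * Z`), section E: the statements of `CZ/T/Stm.lean` from section D
-/

set_option autoImplicit false

namespace Pool.Agent.CZE

open Pool.Agent.CZ Pool.Agent.F2Ch
open Pool.Agent.PSL2Z (TreeAct)

theorem g_cls : CZT.S_cls := by
  intro p m _ k K G _ _ _ _ _ _ C
  obtain ⟨δ, hgd, hδ⟩ := CZD.m_gd p m k K G C
  refine ⟨δ, ⟨C.two_le, hgd, C.c_comm, C.c_sq, ?_, ?_⟩, hδ⟩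
  · rw [hδ, C.χ_c]
    exact neg_one_sq
  · intro g h1 h2
    have h3 : ((C.χ g : kˣ) - 1 : k) * ((C.χ g : k) + 1) = 0 := by
      have := congrArg (fun u : kˣ => (u : k)) ((hδ g).1 h1)
      simp only [Units.val_pow_eq_pow_val, Units.val_one] at this
      linear_combination this
    rcases mul_eq_zero.1 h3 with h | h
    · exact Or.inl (C.ker g (Units.ext (sub_eq_zero.1 h)) h2)
    · right
      refine C.ker _ ?_ ?_
      · rw [map_mul, C.χ_c]
        apply Units.ext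
        rw [Units.val_mul, Units.val_neg, Units.val_one]
        linear_combination -h
      · rw [map_mul, C.ν_c, one_mul, h2]

theorem g_cls' {m : ℕ} {G : Type} [Group G] {c : G} {δ : G →* Multiplicative (ZMod m)}
    {ν : G →* Multiplicative ℤ} (h : CZT.Cls m G c δ ν) : CZ.Cls m G c δ ν where
  two_le := h.two_le
  fg := h.gd.fg
  c_comm := h.c_comm
  c_sq := h.c_sq
  c_δ := h.c_δ
  surj := h.gd.surj
  ker := h.ker

theorem g_dec : CZT.S_dec := by
  intro m G V _ _ c δ ν hcls hcnt X ty hta hc hed hex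
  obtain ⟨v0, l0, h0, h0'⟩ := hex
  let t : GTree G c := ⟨V, inferInstance, X, ty, ⟨v0⟩, hta, hc⟩
  rcases CZ.m_dec m G c δ ν (g_cls' hcls) hcnt t
    (by
      rintro S ⟨a, b, hab, rfl⟩ l ⟨hla, hlb⟩
      exact hed a b hab l hla hlb) ⟨l0, ⟨v0, h0⟩, h0'⟩ with h | ⟨ι, H, i0, h1, h2, h3, h4⟩
  · obtain ⟨f, hf, -⟩ := h
    exact Or.inl ⟨f, hf⟩
  · exact Or.inr ⟨ι, H, i0, h1, h2, h3, h4⟩

end Pool.Agent.CZE
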