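import Pool.Agent.Lib.MP_305fdd_al.CZ.Defs
import Pool.Agent.Lib.MP_305fdd_al.F2.ChApi
import Pool.Agent.Lib.MP_305fdd_al.F2.PF.DefsB
import Pool.Agent.Lib.MP_305fdd_al.F2.D.Defs

/-!
# MP_305fdd_al (`C_m * Z`): the interfaces between the sections W, LX, E and P

`Br k C.t = C.B` (as sets, `Core.mem_B`).  `SG`, `AtInf`, `Dv`, `Flag`, `PT`, `BT`, `Eqv`, `c2`, `CL` as in `F2/PF/Defs`, `F2/PF/DefsB`.
-/

set_option autoImplicit false

namespace Pool.Agent.CZ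

open Pool.Agent.F2Ch Pool.Agent.F2RF Pool.Agent.F2PF

/-! ## Section W (helper57): local facts used by section E -/

/-- [(0.1)] positive elements of `B` have constant term zero -/
def I_pos : Prop :=
  ∀ (p m : ℕ) [Fact p.Prime] (k K G : Type) [Field k] [CharP k p] [IsAlgClosed k] [Field K]
    [Algebra k K] [Group G] (C : Core p m k K G) (Γ : Type) [AddCommGroup Γ] [LinearOrder Γ]
    [IsOrderedAddMonoid Γ] (V : K → Γ), InZ k p C.φ V → ∀ f : C.B, (f : K) ≠ 0 →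
    0 < V (f : K) → cs (C.res f) = 0

/-- [(0.2)] the residue field of a compatible valuation of rational rank two is `k` -/
def I_rk : Prop :=
  ∀ (p m : ℕ) [Fact p.Prime] (k K G : Type) [Field k] [CharP k p] [IsAlgClosed k] [Field K]
    [Algebra k K] [Group G] (C : Core p m k K G) (Γ : Type) [AddCommGroup Γ] [LinearOrder Γ]
    [IsOrderedAddMonoid Γ] (V : K → Γ), InZ k p C.φ V →
    (∃ x1 x2 : K, x1 ≠ 0 ∧ x2 ≠ 0 ∧ ∀ a b : ℤ, a • V x1 + b • V x2 = 0 → a = 0 ∧ b = 0) →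
    ∀ f : K, f ≠ 0 → V f = 0 → ∃ a : k, a ≠ 0 ∧ Gt V 0 (f - algebraMap k K a)

/-- the residue field of a divisorial valuation; flags and places -/
def I_rfw : Prop :=
  ∀ (p m : ℕ) [Fact p.Prime] (k K G : Type) [Field k] [CharP k p] [IsAlgClosed k] [Field K]
    [Algebra k K] [Group G] (C : Core p m k K G) (w : K → ℝ), InZ k p C.φ w → Dv w →
    (∃ f, w f ≠ 0) →
    ∃ (κ : Type) (_ : Field κ) (_ : Algebra k κ) (x : Fin 1 → K) (ac : K → κ) (φb : κ → κ),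
      IsAC k w x ac ∧ IsPinv p φb ∧ φb 1 = 1 ∧ LogTy p φb ∧ Algebra.trdeg k κ = 1 ∧
      (∃ (n : ℕ) (t : Fin n → κ), FracGen k t) ∧
      (∃ (b : Fin (p ^ 1) → κ) (ρ : Fin (p ^ 1) → κ → κ), IsPB p b ρ) ∧
      (∀ f, Ge w 0 f → Ge w 0 (C.φ f) ∧ lc w ac 0 (C.φ f) = φb (lc w ac 0 f)) ∧
      (∀ V : K → ℝ ×ₗ ℝ, Flag k p C.φ w V → ∃ (c : κ → ℤ) (γ : ℝ), 0 < γ ∧ Plc k c ∧
        Compat p φb c ∧ ∀ f, f ≠ 0 → w f = 0 → c2 V f = (c (ac f) : ℝ) * γ) ∧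
      (∀ c : κ → ℤ, Plc k c → Compat p φb c → ∃ V : K → ℝ ×ₗ ℝ, Flag k p C.φ w V ∧
        ∀ f, f ≠ 0 → w f = 0 → c2 V f = (c (ac f) : ℝ))

/-- LEMMA X -/
def I_LX : Prop :=
  ∀ (p : ℕ) [Fact p.Prime] (k M : Type) [Field k] [CharP k p] [IsAlgClosed k] [Field M]
    [Algebra k M] (φ : M → M), IsPinv p φ → φ 1 = 1 → LogTy p φ → Algebra.trdeg k M = 1 →
    (∃ (n : ℕ) (t : Fin n → M), FracGen k t) →
    (∃ (b : Fin (p ^ 1) → M) (ρ : Fin (p ^ 1) → M → M), IsPB p b ρ) →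
    ∀ c1 c2 : M → ℤ, Plc k c1 → Compat p φ c1 → Plc k c2 → Compat p φ c2 →
    (∀ c : M → ℤ, Plc k c → Compat p φ c → c = c1 ∨ c = c2) →
    ∀ (ψ : M) (z : k), ψ ≠ 0 → z ≠ 0 → z ^ 2 ≠ 1 → Gt c1 0 (ψ - algebraMap k M z) →
    Gt c2 0 (ψ - algebraMap k M z⁻¹) →
    (∃ N, φ^[N] (ψ + ψ⁻¹ - algebraMap k M z - algebraMap k M z⁻¹) = 0) → False

/-! ## Section E: the four contradictions, used by section P -/

/-- E1 (helper48): no open interval of a line consists of semi-good points -/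
def I_E1 : Prop :=
  ∀ (p m : ℕ) [Fact p.Prime] (k K G : Type) [Field k] [CharP k p] [IsAlgClosed k] [Field K]
    [Algebra k K] [Group G] (C : Core p m k K G), ¬ Onto m G C.c →
    ∀ (s1 s2 : ℝ) (y : ℝ → K → ℝ) (M : K → Finset (ℝ × ℝ)), CL k p C.φ C.t s1 s2 y M →
    (∀ t, s1 < t → t < s2 → SG (Br k C.t) (y t)) → False

/-- E2: `w` is fixed by `ι` and has a flag of type `BT` and a flag of type `PT` -/
def I_E2 : Prop :=
  ∀ (p m : ℕ) [Fact p.Prime] (k K G : Type) [Field k] [CharP k p] [IsAlgClosed k] [Field K]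
    [Algebra k K] [Group G] (C : Core p m k K G), ¬ Onto m G C.c →
    ∀ w : K → ℝ, InZ k p C.φ w → Dv w → AtInf (Br k C.t) w → (∀ f, w (C.ι f) = w f) →
    ∀ V0 Vp : K → ℝ ×ₗ ℝ, Flag k p C.φ w V0 → BT (Br k C.t) w V0 → Flag k p C.φ w Vp →
    PT (Br k C.t) w Vp → False

/-- E3: `w` is fixed by `ι`, its flags are `V` and `V ∘ ι`, and `V ≥ 0` on the elements of `B` of value `0` -/
def I_E3 : Prop :=
  ∀ (p m : ℕ) [Fact p.Prime] (k K G : Type) [Field k] [CharP k p] [IsAlgClosed k] [Field K]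
    [Algebra k K] [Group G] (C : Core p m k K G), ¬ Onto m G C.c →
    ∀ w : K → ℝ, InZ k p C.φ w → Dv w → AtInf (Br k C.t) w → (∀ f, w (C.ι f) = w f) →
    ∀ V : K → ℝ ×ₗ ℝ, Flag k p C.φ w V → (∀ f ∈ Br k C.t, f ≠ 0 → w f = 0 → 0 ≤ c2 V f) →
    (∀ V', Flag k p C.φ w V' → Eqv V' V ∨ Eqv V' (fun f => V (C.ι f))) → False

/-- E4: `w` is semi-good, fixed by `ι` and negative on the ideal -/
def I_E4 : Prop :=
  ∀ (p m : ℕ) [Fact p.Prime] (k K G : Type) [Field k] [CharP k p] [IsAlgClosed k] [Field K]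
    [Algebra k K] [Group G] (C : Core p m k K G), ¬ Onto m G C.c →
    ∀ w : K → ℝ, InZ k p C.φ w → Dv w → SG (Br k C.t) w → AtInf (Br k C.t) w →
    (∀ f, w (C.ι f) = w f) → (∀ f ∈ C.I, w f < 0) → False

end Pool.Agent.CZ
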