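import Pool.Agent.Lib.MP_305fdd_al.CZ.E.Stm
import Pool.Agent.Lib.MP_305fdd_al.CZ.T.Stm
import Pool.Agent.Lib.MP_305fdd_al.F2.Ch.U4

/-!
# MP_305fdd_al (`C_m * Z`), section E: piece E2
-/

set_option autoImplicit false

namespace Pool.Agent.CZE

open Pool.Agent.CZ Pool.Agent.F2Ch Pool.Agent.F2RF Pool.Agent.F2PF
open Pool.Agent.F2 (PC)
open Pool.Agent.F2D (Irr Disc EdgeElt)
open Pool.Agent.CZD (OntoW)
open Pool.Agent.PSL2Z (TreeAct)

/-- `T l - (z + z⁻¹)` vanishes on the reducible locus if `ν l = 1` -/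
theorem E2_res {p m : ℕ} [Fact p.Prime] {k K G : Type} [Field k] [CharP k p] [IsAlgClosed k]
    [Field K] [Algebra k K] [Group G] (C : Core p m k K G) (l : G) (hν : C.ν l = 1) :
    ∃ h : C.T l - (algebraMap k K (C.χ l : k) + algebraMap k K ((C.χ l)⁻¹ : kˣ)) ∈ C.B,
      C.res ⟨C.T l - (algebraMap k K (C.χ l : k) + algebraMap k K ((C.χ l)⁻¹ : kˣ)), h⟩ = 0 := by
  have hm : C.T l - (algebraMap k K (C.χ l : k) + algebraMap k K ((C.χ l)⁻¹ : kˣ)) ∈ C.B :=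
    C.B.sub_mem (C.T_mem l) (C.B.add_mem (C.B.algebraMap_mem _) (C.B.algebraMap_mem _))
  refine ⟨hm, ?_⟩
  have h1 : (⟨C.T l - (algebraMap k K (C.χ l : k) + algebraMap k K ((C.χ l)⁻¹ : kˣ)), hm⟩ : C.B) =
      ⟨C.T l, C.T_mem l⟩ - (algebraMap k C.B (C.χ l : k) + algebraMap k C.B ((C.χ l)⁻¹ : kˣ)) :=
    rfl
  rw [h1, map_sub, map_add, AlgHom.commutes, AlgHom.commutes, C.res_T, hν]
  have h2 : rr (C.χ l) (Multiplicative.toAdd (1 : Multiplicative ℤ)) =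
      AddMonoidAlgebra.single (0 : ℤ) (((C.χ l)⁻¹ : kˣ) : k) +
        AddMonoidAlgebra.single (0 : ℤ) ((C.χ l : kˣ) : k) := by
    unfold rr
    rw [toAdd_one, neg_zero]
  rw [h2]
  have h3 : ∀ c : k, algebraMap k (Ls k) c = AddMonoidAlgebra.single (0 : ℤ) c := fun c => rfl
  rw [h3, h3]
  abel

theorem p_E2 (h2 : S_inf) (h3 : S_ell) (h4 : S_fl) (h5 : S_ed)
    (h6 : S_sq) (h7 : CZT.S_cls) (h8 : CZD.S_TT) (h9 : CZD.S_CL) (h10 : CZD.S_ow)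
    (h11 : F2D.S_l3) : S_E2 := by
  intro p m _ k K G _ _ _ _ _ _ C hno w hw hdv hinf hι V0 Vp hV0 hB hVp hP
  obtain ⟨δ, hcls, hδ⟩ := h7 p m k K G C
  obtain ⟨g0, hg0⟩ := h2 p m k K G C w hw.isv hw.triv hinf
  have hne : ∃ f, w f ≠ 0 := ⟨C.T g0, hg0.ne⟩
  obtain ⟨W, _, Z, ty, hZ, hell, hedge⟩ := h8 G K ℝ C.T w C.pc C.irr hw.isv hdv ⟨g0, hg0⟩
  obtain ⟨hr0, hp0, -, hc0⟩ := h4 p k K C.φ w V0 hV0 hne
  obtain ⟨hr1, hp1, hq1, hc1⟩ := h4 p k K C.φ w Vp hVp hne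
  obtain ⟨-, hl0⟩ := h3 p m k K G C (ℝ ×ₗ ℝ) V0 hV0.inz hr0
  obtain ⟨he1, -⟩ := h3 p m k K G C (ℝ ×ₗ ℝ) Vp hVp.inz hr1
  obtain ⟨μ0, hμ0⟩ := hB
  obtain ⟨μ, hμ⟩ := hP
  have ha : ∀ (a : W) (l : G), l • a = a → C.ν l = 1 := by
    intro a l hl
    have hwl := hell l a hl
    refine (hl0 l ?_).1
    rcases hwl.lt_or_eq with h | h
    · exact (hp0 _ h).le
    · by_cases hT : C.T l = 0
      · rw [hT, hV0.inz.isv.zero]
      · rw [(hc0 _ h.symm).1]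
        have h12 : μ0 * w (C.T l) + (-1) * c2 V0 (C.T l) ≤ 0 :=
          hμ0 (C.T l) ((C.mem_B _).1 (C.T_mem l)) hT
        rw [← h] at h12
        linarith
  have hb : ∀ a b, Z.Adj a b → ∀ l : G, l • a = a → l • b = b → δ l = 1 := by
    intro a b hab l hla hlb
    obtain ⟨g, hg⟩ := hedge a b hab
    obtain ⟨ψ, hψ⟩ := hg l hla hlb
    have hν := ha a l hla
    have hfst : (fun f => (ofLex (Vp f)).1) = w := funext hVp.fst
    have hVψ : Vp ψ = 0 := by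
      refine h11 G K C.T Vp l g ψ hVp.inz.isv ?_ ?_ ⟨μ, 1, one_pos, fun l' => ?_⟩
      · rw [hfst]; exact hw.isv
      · rw [hfst]; exact hψ
      · by_cases hT : C.T l' = 0
        · rw [hT, hVp.inz.isv.zero]
          simp
        · rw [hVp.fst]
          exact hμ _ ((C.mem_B _).1 (C.T_mem l')) hT
    obtain ⟨hd, hTj⟩ := h5 K G C.T w C.ι C.pc hw.isv C.ι_T hι l g ψ hψ
    have hT1 := hTj 1
    rw [zpow_one, zpow_one, zpow_neg_one] at hT1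
    have hVi : Vp ψ⁻¹ = 0 := by
      have := hVp.inz.isv.mul ψ ψ⁻¹ hψ.ne (inv_ne_zero hψ.ne)
      rw [mul_inv_cancel₀ hψ.ne, u4_one hVp.inz.isv, hVψ, zero_add] at this
      exact this.symm
    have hr : Gt Vp 0 (C.T l - (ψ + ψ⁻¹)) := hT1.imp_right fun h => hp1 _ h
    obtain ⟨hm, hres⟩ := E2_res C l hν
    set zz : K := algebraMap k K (C.χ l : k) + algebraMap k K ((C.χ l)⁻¹ : kˣ) with hzz
    have hf : Ge Vp 0 (C.T l - zz) := by
      have e1 : C.T l - zz = (C.T l - (ψ + ψ⁻¹)) + ((ψ + ψ⁻¹) +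
          (algebraMap k K (-(C.χ l : k)) + algebraMap k K (-(((C.χ l)⁻¹ : kˣ) : k)))) := by
        rw [hzz, map_neg, map_neg]
        ring
      rw [e1]
      exact u4_ge_add hVp.inz.isv (u4_gt_ge hr) (u4_ge_add hVp.inz.isv
        (u4_ge_add hVp.inz.isv (Or.inr hVψ.ge) (Or.inr hVi.ge))
        (u4_ge_add hVp.inz.isv (u4_ge_alg hVp.inz.triv _) (u4_ge_alg hVp.inz.triv _)))
    have hfw : Gt w 0 (C.T l - zz) := by
      by_cases hf0 : C.T l - zz = 0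
      · exact Or.inl hf0
      right
      have h13 := hf.resolve_left hf0
      have h14 : 0 ≤ w (C.T l - zz) := hq1 _ h13
      rcases h14.lt_or_eq with h | h
      · exact h
      · exfalso
        have h15 : μ * w (C.T l - zz) + 1 * c2 Vp (C.T l - zz) ≤ 0 :=
          hμ _ ((C.mem_B _).1 hm) hf0
        rw [← h] at h15
        refine he1 (C.T l - zz) ⟨hf0, hm, hres⟩ (le_antisymm (not_lt.1 fun h16 => ?_) h13)
        rw [(hc1 _ h.symm).2] at h16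
        linarith
    have hψz : Gt w 0 (ψ + ψ⁻¹ - zz) := by
      have e1 : ψ + ψ⁻¹ - zz = (C.T l - zz) + -(C.T l - (ψ + ψ⁻¹)) := by ring
      rw [e1]
      exact u4_gt_add hw.isv hfw (u4_gt_neg hw.isv hT1)
    rw [hδ]
    exact h6 p m k K G C w hw.isv hw.triv hι ψ l hψ.ne hψ.val hd hψz
  exact hno (h10 p m k K G C (h9 m G W δ C.ν Z hcls.gd hZ.tree (fun g u v h => hZ.adj g u v h)
    ha hb))

end Pool.Agent.CZE
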