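import Pool.Agent.Lib.MP_305fdd_al.CZ.E.Stm

/-!
# MP_305fdd_al (`C_m * Z`), section E: the piece [CZE E3]

The contradiction E3: `w` is fixed by `ι`, its flags are `V` and `V ∘ ι`, and `V ≥ 0` on the elements of
`B` of value `0`.
-/

set_option autoImplicit false

namespace Pool.Agent.CZE

open Pool.Agent.CZ Pool.Agent.F2Ch Pool.Agent.F2RF Pool.Agent.F2PF
open Pool.Agent.F2 (PC)
open Pool.Agent.F2D (Irr Disc EdgeElt)
open Pool.Agent.CZD (OntoW)
open Pool.Agent.PSL2Z (TreeAct)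

/-! ## Elements of positive value -/

section
variable {K Γ : Type} [Field K] [AddCommGroup Γ] [LinearOrder Γ] [IsOrderedAddMonoid Γ]
  {v : K → Γ}

private theorem E3_one (hv : IsV v) : v 1 = 0 := by
  have h := hv.mul 1 1 one_ne_zero one_ne_zero
  rw [mul_one] at h
  exact left_eq_add.mp h

private theorem E3_neg_one (hv : IsV v) : v (-1) = 0 := by
  have h := hv.mul (-1) (-1) (neg_ne_zero.mpr one_ne_zero) (neg_ne_zero.mpr one_ne_zero)
  rw [neg_mul_neg, one_mul, E3_one hv] at h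
  rcases lt_trichotomy (v (-1)) 0 with h1 | h1 | h1
  · exact absurd h.symm (add_neg h1 h1).ne
  · exact h1
  · exact absurd h.symm (add_pos h1 h1).ne'

private theorem E3_neg (hv : IsV v) (f : K) : v (-f) = v f := by
  by_cases hf : f = 0
  · rw [hf, neg_zero]
  · have h := hv.mul (-1) f (neg_ne_zero.mpr one_ne_zero) hf
    rw [neg_one_mul, E3_neg_one hv, zero_add] at h
    exact h

private theorem E3_inv (hv : IsV v) {f : K} (hf : f ≠ 0) : v f⁻¹ = - v f := by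
  have h := hv.mul f f⁻¹ hf (inv_ne_zero hf)
  rw [mul_inv_cancel₀ hf, E3_one hv] at h
  exact eq_neg_of_add_eq_zero_right h.symm

private theorem E3_gt_neg (hv : IsV v) {c : Γ} {x : K} (h : Gt v c x) : Gt v c (-x) := by
  rcases h with h | h
  · left; rw [h, neg_zero]
  · right; rwa [E3_neg hv]

private theorem E3_ge_neg (hv : IsV v) {c : Γ} {x : K} (h : Ge v c x) : Ge v c (-x) := by
  rcases h with h | h
  · left; rw [h, neg_zero]
  · right; rwa [E3_neg hv]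

private theorem E3_gt_add (hv : IsV v) {c : Γ} {x y : K} (hx : Gt v c x) (hy : Gt v c y) :
    Gt v c (x + y) := by
  by_cases hxy : x + y = 0
  · exact Or.inl hxy
  by_cases h1 : x = 0
  · rw [h1, zero_add]; exact hy
  by_cases h2 : y = 0
  · rw [h2, add_zero]; exact hx
  right
  exact lt_of_lt_of_le (lt_min (hx.resolve_left h1) (hy.resolve_left h2)) (hv.add x y h1 h2 hxy)

private theorem E3_ge_add (hv : IsV v) {c : Γ} {x y : K} (hx : Ge v c x) (hy : Ge v c y) :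
    Ge v c (x + y) := by
  by_cases hxy : x + y = 0
  · exact Or.inl hxy
  by_cases h1 : x = 0
  · rw [h1, zero_add]; exact hy
  by_cases h2 : y = 0
  · rw [h2, add_zero]; exact hx
  right
  exact le_trans (le_min (hx.resolve_left h1) (hy.resolve_left h2)) (hv.add x y h1 h2 hxy)

private theorem E3_gt_sub (hv : IsV v) {c : Γ} {x y : K} (hx : Gt v c x) (hy : Gt v c y) :
    Gt v c (x - y) := by
  rw [sub_eq_add_neg]; exact E3_gt_add hv hx (E3_gt_neg hv hy)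

private theorem E3_ge_sub (hv : IsV v) {c : Γ} {x y : K} (hx : Ge v c x) (hy : Ge v c y) :
    Ge v c (x - y) := by
  rw [sub_eq_add_neg]; exact E3_ge_add hv hx (E3_ge_neg hv hy)

private theorem E3_gt_ge {c : Γ} {x : K} (h : Gt v c x) : Ge v c x :=
  h.imp id le_of_lt

/-- an eigenvalue `ψ` with `ψ + ψ⁻¹` close to an element of nonnegative value has value `0` -/
private theorem E3_psi (hv : IsV v) {ψ y : K} (hψ : ψ ≠ 0) (hy : Ge v 0 y)
    (h : Gt v 0 (ψ + ψ⁻¹ - y)) : v ψ = 0 := by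
  have h1 : Ge v 0 (ψ + ψ⁻¹) := by
    have := E3_ge_add hv (E3_gt_ge h) hy
    rwa [sub_add_cancel] at this
  have hi := E3_inv hv hψ
  have h2 := inv_ne_zero hψ
  rcases lt_trichotomy (v ψ) 0 with h3 | h3 | h3
  · exfalso
    have h4 : Ge v 0 ψ := by
      have := E3_ge_sub hv h1 (Or.inr (by rw [hi]; exact (neg_pos.mpr h3).le) : Ge v 0 ψ⁻¹)
      rwa [add_sub_cancel_right] at this
    exact absurd (h4.resolve_left hψ) (not_le.mpr h3)
  · exact h3
  · exfalso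
    have h4 : Ge v 0 ψ⁻¹ := by
      have := E3_ge_sub hv h1 (Or.inr h3.le : Ge v 0 ψ)
      rwa [add_sub_cancel_left] at this
    have h5 := h4.resolve_left h2
    rw [hi] at h5
    exact absurd (neg_nonneg.mp h5) (not_le.mpr h3)

end

/-! ## Residues -/

section
variable {k K κ : Type} [Field k] [Field K] [Algebra k K] [Field κ] [Algebra k κ]
  {w : K → ℝ} {x : Fin 1 → K} {ac : K → κ}

private theorem E3_lc_of {f : K} (hf : f ≠ 0) (h0 : w f = 0) : lc w ac 0 f = ac f := by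
  unfold lc; rw [if_pos ⟨hf, h0⟩]

private theorem E3_lc_gt {f : K} (h : Gt w 0 f) : lc w ac 0 f = 0 := by
  unfold lc
  rw [if_neg]
  rintro ⟨h1, h2⟩
  exact (h.resolve_left h1).ne' h2

private theorem E3_ge_c (ht : Triv k w) (a : k) : Ge w 0 (algebraMap k K a) := Or.inr (ht a).ge

private theorem E3_lc_c (ht : Triv k w) (ha : IsAC k w x ac) (a : k) :
    lc w ac 0 (algebraMap k K a) = algebraMap k κ a := by
  by_cases h : a = 0
  · rw [h, map_zero, map_zero]; exact E3_lc_gt (Or.inl rfl)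
  · rw [E3_lc_of ((map_ne_zero _).mpr h) (ht a), ha.alg]

/-- the residue of an element close to a constant is close to this constant -/
private theorem E3_place (hw : IsV w) (ht : Triv k w) (ha : IsAC k w x ac)
    {V : K → ℝ ×ₗ ℝ} (hV : ∀ f, w f = 0 → 0 < V f → 0 < c2 V f) {c : κ → ℤ} {γ : ℝ}
    (hγ : 0 < γ) (hc : ∀ f, f ≠ 0 → w f = 0 → c2 V f = (c (ac f) : ℝ) * γ) {ψ : K} (hψ : ψ ≠ 0)
    (hψ0 : w ψ = 0) (a : k) (h : Gt V 0 (ψ - algebraMap k K a)) :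
    Gt c 0 (ac ψ - algebraMap k κ a) := by
  obtain ⟨d, hd⟩ : ∃ d, d = ψ - algebraMap k K a := ⟨_, rfl⟩
  have hd0 : Ge w 0 d := by
    rw [hd]; exact E3_ge_sub hw (Or.inr hψ0.ge) (E3_ge_c ht a)
  have hlc : lc w ac 0 d = ac ψ - algebraMap k κ a := by
    have h1 := ha.add 0 d (algebraMap k K a) hd0 (E3_ge_c ht a)
    rw [E3_lc_c ht ha, hd, sub_add_cancel, E3_lc_of hψ hψ0] at h1
    rw [hd, h1, add_sub_cancel_right]
  rw [← hd] at h
  rw [← hlc]
  by_cases hd1 : d = 0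
  · left; exact E3_lc_gt (Or.inl hd1)
  have hd2 := hd0.resolve_left hd1
  rcases hd2.eq_or_lt with h3 | h3
  · right
    rw [E3_lc_of hd1 h3.symm]
    have h5 := hV d h3.symm (h.resolve_left hd1)
    rw [hc d hd1 h3.symm] at h5
    have h6 : (0 : ℝ) < (c (ac d) : ℝ) := (pos_iff_pos_of_mul_pos h5).mpr hγ
    exact_mod_cast h6
  · left; exact E3_lc_gt (Or.inr h3)

private theorem E3_iter {φ : K → K} {φb : κ → κ}
    (h : ∀ f, Ge w 0 f → Ge w 0 (φ f) ∧ lc w ac 0 (φ f) = φb (lc w ac 0 f)) (N : ℕ) :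
    ∀ f, Ge w 0 f → lc w ac 0 (φ^[N] f) = φb^[N] (lc w ac 0 f) := by
  induction N with
  | zero => intro f _; rfl
  | succ N ih =>
    intro f hf
    obtain ⟨h1, h2⟩ := h f hf
    rw [Function.iterate_succ_apply, Function.iterate_succ_apply, ih _ h1, h2]

end

/-! ## The core data -/

section
variable {p m : ℕ} [Fact p.Prime] {k K G : Type} [Field k] [CharP k p] [IsAlgClosed k]
  [Field K] [Algebra k K] [Group G]

private theorem E3_tw (C : Core p m k K G) {w : K → ℝ} (hι : ∀ f, w (C.ι f) = w f)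
    {V : K → ℝ ×ₗ ℝ} (hV : Flag k p C.φ w V) : Flag k p C.φ w (fun f => V (C.ι f)) where
  inz :=
    { isv :=
        { zero := by
            show V (C.ι 0) = 0
            rw [map_zero]; exact hV.inz.isv.zero
          mul := by
            intro x y hx hy
            show V (C.ι (x * y)) = V (C.ι x) + V (C.ι y)
            rw [map_mul]
            exact hV.inz.isv.mul _ _ ((map_ne_zero C.ι).mpr hx) ((map_ne_zero C.ι).mpr hy)
          add := by
            intro x y hx hy hxy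
            show min (V (C.ι x)) (V (C.ι y)) ≤ V (C.ι (x + y))
            have h := (map_ne_zero C.ι).mpr hxy
            rw [map_add] at h ⊢
            exact hV.inz.isv.add _ _ ((map_ne_zero C.ι).mpr hx) ((map_ne_zero C.ι).mpr hy) h }
      triv := by
        intro c
        show V (C.ι (algebraMap k K c)) = 0
        rw [C.ι_k]; exact hV.inz.triv _
      compat := by
        intro f hf
        show V (C.ι f) ≤ p • V (C.ι (C.φ f))
        have h := (map_ne_zero C.ι).mpr hf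
        rw [C.ι_φ] at h ⊢
        exact hV.inz.compat _ h }
  fst f := by
    show (ofLex (V (C.ι f))).1 = w f
    rw [hV.fst, hι]
  nt := by
    obtain ⟨f, h1, h2, h3⟩ := hV.nt
    have e : C.ι (C.ι.symm f) = f := C.ι.apply_symm_apply f
    refine ⟨C.ι.symm f, (map_ne_zero C.ι.symm).mpr h1, ?_, ?_⟩
    · rw [← hι, e]; exact h2
    · show (ofLex (V (C.ι (C.ι.symm f)))).2 ≠ 0
      rw [e]; exact h3

/-- `T l - (z + z⁻¹)` is in the ideal of the reducible locus if `ν l = 1` -/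
private theorem E3_res (C : Core p m k K G) {l : G} (hl : C.ν l = 1) :
    ∃ f : C.B, (f : K) = C.T l -
      (algebraMap k K (C.χ l : k) + algebraMap k K ((C.χ l)⁻¹ : kˣ)) ∧ C.res f = 0 := by
  refine ⟨⟨C.T l, C.T_mem l⟩ -
    (algebraMap k C.B (C.χ l : k) + algebraMap k C.B ((C.χ l)⁻¹ : kˣ)), rfl, ?_⟩
  rw [map_sub, map_add, C.res_T, AlgHom.commutes, AlgHom.commutes, hl, toAdd_one]
  rw [rr, neg_zero, AddMonoidAlgebra.coe_algebraMap]
  show AddMonoidAlgebra.single (0 : ℤ) (((C.χ l)⁻¹ : kˣ) : k) +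
    AddMonoidAlgebra.single (0 : ℤ) ((C.χ l : kˣ) : k) -
    (AddMonoidAlgebra.single (0 : ℤ) ((C.χ l : kˣ) : k) +
      AddMonoidAlgebra.single (0 : ℤ) (((C.χ l)⁻¹ : kˣ) : k)) = 0
  rw [add_comm, sub_self]

/-- elements of the ideal are killed by a power of `φ` -/
private theorem E3_kill (C : Core p m k K G) (f : C.B) (hf : C.res f = 0) :
    ∃ N, C.φ^[N] (f : K) = 0 := by
  obtain ⟨N, hN⟩ := C.tau f
  refine ⟨N, ?_⟩
  have h1 : cs (C.res f) = 0 := by rw [hf]; rfl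
  have h2 : ∀ n : ℕ, (Pool.Agent.F2.rt p k)^[n] (0 : k) = 0 := by
    intro n
    exact Function.iterate_fixed (map_zero _) n
  rw [hN N le_rfl, h1, h2, map_zero]

private theorem E3_pow (C : Core p m k K G) {z : kˣ} (h : z ^ (2 * m) = 1) : z ^ p = z⁻¹ := by
  obtain ⟨n, hn⟩ := C.hpm
  have h1 : z ^ (p + 1) = 1 := by rw [hn, pow_mul, h, one_pow]
  rw [pow_succ] at h1
  exact eq_inv_of_mul_eq_one_left h1

end

theorem p_E3 (hrfw : I_rfw) (hLX : I_LX) (hinf : S_inf) (hell : S_ell) (hfl : S_fl)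
    (hed : S_ed) (hzz : S_zz) (hfpl : S_fpl) (hgd : CZD.S_gd) (hTT : CZD.S_TT)
    (hCL : CZD.S_CL) (how : CZD.S_ow) : S_E3 := by
  intro p m _ k K G _ _ _ _ _ _ C hno w hw hdv hat hι V hV hnn hflags
  obtain ⟨δ, hGD, hδ⟩ := hgd p m k K G C
  obtain ⟨g0, hg0⟩ := hinf p m k K G C w hw.isv hw.triv hat
  have hf0 : ∃ f, w f ≠ 0 := ⟨C.T g0, hg0.ne⟩
  obtain ⟨hr2, hp1, -, hp3⟩ := hfl p k K C.φ w V hV hf0
  obtain ⟨-, hE⟩ := hell p m k K G C (ℝ ×ₗ ℝ) V hV.inz hr2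
  obtain ⟨W, _, Z, ty, hTA, hval, hedge⟩ :=
    hTT G K ℝ C.T w C.pc C.irr hw.isv hdv ⟨g0, hg0⟩
  -- (a) elliptic elements
  have ha : ∀ l, 0 ≤ w (C.T l) → 0 ≤ V (C.T l) := by
    intro l hl
    by_cases h0 : C.T l = 0
    · rw [h0, hV.inz.isv.zero]
    rcases hl.eq_or_lt with h1 | h1
    · exact ((hp3 _ h1.symm).1).mpr (hnn _ ((C.mem_B _).mp (C.T_mem l)) h0 h1.symm)
    · exact (hp1 _ h1).le
  -- (b) an edge element of nontrivial class
  have hb : ∃ u v, Z.Adj u v ∧ ∃ l : G, l • u = u ∧ l • v = v ∧ δ l ≠ 1 := by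
    by_contra hcon
    push Not at hcon
    refine hno (how p m k K G C ?_)
    exact hCL m G W δ C.ν Z hGD hTA.tree hTA.adj
      (fun v l h => (hE l (ha l (hval l v h))).1) hcon
  obtain ⟨u, v, huv, l, hlu, hlv, hδl⟩ := hb
  obtain ⟨g, hg⟩ := hedge u v huv
  obtain ⟨ψ, hEE⟩ := hg l hlu hlv
  have hψ := hEE.ne
  have hz2 : C.χ l ^ 2 ≠ 1 := fun h => hδl ((hδ l).mpr h)
  obtain ⟨hν, hTl⟩ := hE l (ha l (hval l u hlu))
  obtain ⟨hι1, hj⟩ := hed K G C.T w C.ι C.pc hw.isv C.ι_T hι l g ψ hEE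
  have hr := hj 1
  rw [zpow_one, zpow_one, zpow_neg_one] at hr
  have hwV : ∀ f, Gt w 0 f → Gt V 0 f := fun f h => h.imp id (hp1 f)
  -- (c) `ψ` is close to `z1`
  have hci : ∀ z : kˣ, algebraMap k K ((z⁻¹ : kˣ) : k) = (algebraMap k K (z : k))⁻¹ := by
    intro z; rw [Units.val_inv_eq_inv_val, map_inv₀]
  have hcn : ∀ z : kˣ, algebraMap k K (z : k) ≠ 0 := fun z => (map_ne_zero _).mpr z.ne_zero
  have hsum : Gt V 0 (ψ + ψ⁻¹ - (algebraMap k K (C.χ l : k) + algebraMap k K ((C.χ l)⁻¹ : kˣ))) := by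
    have h1 := E3_gt_sub hV.inz.isv hTl (hwV _ hr)
    convert h1 using 1
    ring
  have hVψ : V ψ = 0 := by
    refine E3_psi hV.inz.isv hψ ?_ hsum
    exact E3_ge_add hV.inz.isv (Or.inr (hV.inz.triv _).ge) (Or.inr (hV.inz.triv _).ge)
  obtain ⟨z1, hz1, hGz, hz1m, hz1s⟩ : ∃ z1 : kˣ, z1 ^ 2 ≠ 1 ∧
      Gt V 0 (ψ - algebraMap k K (z1 : k)) ∧ z1 ^ (2 * m) = 1 ∧
      algebraMap k K (C.χ l : k) + algebraMap k K ((C.χ l)⁻¹ : kˣ) =
        algebraMap k K (z1 : k) + algebraMap k K ((z1⁻¹ : kˣ) : k) := by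
    rcases hzz K (ℝ ×ₗ ℝ) V hV.inz.isv ψ (algebraMap k K (C.χ l : k)) hψ (hcn _) hVψ
      (hV.inz.triv _) (by rw [← hci]; exact hsum) with h | h
    · exact ⟨C.χ l, hz2, h, C.χ_pow l, rfl⟩
    · refine ⟨(C.χ l)⁻¹, ?_, by rw [hci]; exact h, ?_, ?_⟩
      · rw [inv_pow, Ne, inv_eq_one]; exact hz2
      · rw [inv_pow, C.χ_pow, inv_one]
      · rw [inv_inv, add_comm]
  have hpz := E3_pow C hz1m
  -- (d) the flag `V ∘ ι`
  have hV' := E3_tw C hι hV
  obtain ⟨-, -, -, hp3'⟩ := hfl p k K C.φ w _ hV' hf0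
  have hGz' : Gt (fun f => V (C.ι f)) 0 (ψ - algebraMap k K ((z1⁻¹ : kˣ) : k)) := by
    have e : C.ι (ψ - algebraMap k K ((z1⁻¹ : kˣ) : k)) =
        -(ψ - C.ι ψ) + (ψ - algebraMap k K (z1 : k)) := by
      rw [map_sub, C.ι_k, ← Units.val_pow_eq_pow_val, inv_pow, hpz, inv_inv]
      ring
    have h1 : Gt V 0 (C.ι (ψ - algebraMap k K ((z1⁻¹ : kˣ) : k))) := by
      rw [e]
      exact E3_gt_add hV.inz.isv (E3_gt_neg hV.inz.isv (hwV _ hι1)) hGz
    rcases h1 with h1 | h1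
    · exact Or.inl ((map_eq_zero C.ι).mp h1)
    · exact Or.inr h1
  -- (e) the residue field
  obtain ⟨κ, _, _, x, ac, φb, hac, hpi, hφ1, hlog, htr, hfg, hpb, hres, hfp, hpf⟩ :=
    hrfw p m k K G C w hw hdv hf0
  obtain ⟨c1, γ1, hγ1, hP1, hC1, hv1⟩ := hfp V hV
  obtain ⟨c2', γ2, hγ2, hP2, hC2, hv2⟩ := hfp _ hV'
  have hall : ∀ c : κ → ℤ, Plc k c → Compat p φb c → c = c1 ∨ c = c2' := by
    intro c hc hcc
    obtain ⟨V2, hF2, hv⟩ := hpf c hc hcc
    have hv' : ∀ f, f ≠ 0 → w f = 0 → c2 V2 f = (c (ac f) : ℝ) * 1 := by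
      intro f h1 h2; rw [mul_one]; exact hv f h1 h2
    rcases hflags V2 hF2 with h | h
    · left
      exact hfpl k K κ w x ac hw.isv hac V2 V c c1 1 γ1 hF2.fst hV.fst one_pos hγ1 hc hP1 hv' hv1 h
    · right
      exact hfpl k K κ w x ac hw.isv hac V2 _ c c2' 1 γ2 hF2.fst hV'.fst one_pos hγ2 hc hP2 hv'
        hv2 h
  -- (f) the contradiction
  have hΨ := hac.ne ψ hψ
  have g1 := E3_place hw.isv hw.triv hac (fun f h => (hp3 f h).2.mp) hγ1 hv1 hψ hEE.val _ hGz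
  have g2 := E3_place hw.isv hw.triv hac (fun f h => (hp3' f h).2.mp) hγ2 hv2 hψ hEE.val _ hGz'
  rw [Units.val_inv_eq_inv_val] at g2
  refine hLX p k κ φb hpi hφ1 hlog htr hfg hpb c1 c2' hP1 hC1 hP2 hC2 hall (ac ψ) (z1 : k) hΨ
    z1.ne_zero ?_ g1 g2 ?_
  · intro h
    exact hz1 (Units.ext (by rw [Units.val_pow_eq_pow_val, h, Units.val_one]))
  obtain ⟨h, hh, hh0⟩ := E3_res C hν
  obtain ⟨N, hN⟩ := E3_kill C h hh0
  refine ⟨N, ?_⟩
  have hgψ : Ge w 0 ψ := Or.inr hEE.val.ge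
  have hψi : w ψ⁻¹ = 0 := by rw [E3_inv hw.isv hψ, hEE.val, neg_zero]
  have hgψi : Ge w 0 ψ⁻¹ := Or.inr hψi.ge
  have hD : Ge w 0 (ψ + ψ⁻¹ + (algebraMap k K (-(z1 : k)) + algebraMap k K (-((z1⁻¹ : kˣ) : k)))) :=
    E3_ge_add hw.isv (E3_ge_add hw.isv hgψ hgψi)
      (E3_ge_add hw.isv (E3_ge_c hw.triv _) (E3_ge_c hw.triv _))
  have eh : (h : K) = (ψ + ψ⁻¹ + (algebraMap k K (-(z1 : k)) +
      algebraMap k K (-((z1⁻¹ : kˣ) : k)))) + (C.T l - (ψ + ψ⁻¹)) := by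
    rw [hh, hz1s, map_neg, map_neg]
    ring
  have hgh : Ge w 0 (h : K) := by rw [eh]; exact E3_ge_add hw.isv hD (E3_gt_ge hr)
  have e1 : lc w ac 0 (h : K) = ac ψ + (ac ψ)⁻¹ - algebraMap k κ (z1 : k) -
      algebraMap k κ ((z1 : k)⁻¹) := by
    have e2 : ac ψ⁻¹ = (ac ψ)⁻¹ := by
      have h1 := hac.mul ψ ψ⁻¹
      rw [mul_inv_cancel₀ hψ] at h1
      have h2 := hac.alg 1
      rw [map_one, map_one] at h2
      rw [h2] at h1
      exact eq_inv_of_mul_eq_one_right h1.symm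
    rw [eh, hac.add 0 _ _ hD (E3_gt_ge hr), E3_lc_gt hr, add_zero,
      hac.add 0 _ _ (E3_ge_add hw.isv hgψ hgψi)
        (E3_ge_add hw.isv (E3_ge_c hw.triv _) (E3_ge_c hw.triv _)),
      hac.add 0 _ _ hgψ hgψi, hac.add 0 _ _ (E3_ge_c hw.triv _) (E3_ge_c hw.triv _),
      E3_lc_c hw.triv hac, E3_lc_c hw.triv hac, E3_lc_of hψ hEE.val,
      E3_lc_of (inv_ne_zero hψ) hψi, e2, map_neg, map_neg, Units.val_inv_eq_inv_val]
    ring
  have e3 := E3_iter hres N (h : K) hgh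
  rw [hN, e1, E3_lc_gt (Or.inl rfl)] at e3
  rw [← e3]

end Pool.Agent.CZE
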