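import Pool.Agent.Lib.MP_305fdd_al.CZ.E.Stm
import Pool.Agent.Lib.MP_305fdd_al.CZ.T.Stm
import Pool.Agent.Lib.MP_305fdd_al.F2.Ch.U4

/-!
# MP_305fdd_al (`C_m * Z`), section E: piece E4
-/

set_option autoImplicit false

namespace Pool.Agent.CZE

open Pool.Agent.CZ Pool.Agent.F2Ch Pool.Agent.F2RF Pool.Agent.F2PF
open Pool.Agent.F2 (PC)
open Pool.Agent.F2D (Irr Disc EdgeElt)
open Pool.Agent.CZD (OntoW)
open Pool.Agent.PSL2Z (TreeAct)

theorem E4_cls {m : ℕ} {G : Type} [Group G] {c : G} {δ : G →* Multiplicative (ZMod m)}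
    {ν : G →* Multiplicative ℤ} (h : CZT.Cls m G c δ ν) : CZ.Cls m G c δ ν where
  two_le := h.two_le
  fg := h.gd.fg
  c_comm := h.c_comm
  c_sq := h.c_sq
  c_δ := h.c_δ
  surj := h.gd.surj
  ker := h.ker

theorem p_E4 (h0 : S_inf) (h1 : S_neg) (h2 : S_xt) (h3 : S_w2) (h4 : S_w3) (h5 : S_ab)
    (h6 : CZT.S_cls) (h7 : CZT.S_tt) (h8 : CZT.S_dec) (h9 : CZD.S_EX) (h10 : CZD.S_tw)
    (h11 : CZD.S_ow) : S_E4 := by
  intro p m _ k K G _ _ _ _ _ _ C hno w hw hdv hSG hinf hι hI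
  obtain ⟨δ, hcls, hδ⟩ := h6 p m k K G C
  obtain ⟨g0, hg0⟩ := h0 p m k K G C w hw.isv hw.triv hinf
  have hneg := h1 p m k K G C
  have hxt := h2 p m k K G C w hw.isv hw.triv hI
  have hnoW : ¬ OntoW m G := fun h => hno (h11 p m k K G C h)
  obtain ⟨W, _, Z, ty, hZ, hell, hedge, hcfix⟩ :=
    h7 G K ℝ C.T w C.pc C.irr hw.isv hdv ⟨g0, hg0⟩
  have hcf := hcfix C.c hneg
  by_cases hcase : ∀ l, 0 ≤ w (C.T l) → C.ν l = 1
  · -- case I: exact trees
    refine hnoW (h9 p m k K G C W Z hZ.tree (fun g u v h => hZ.adj g u v h) ?_ ?_)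
    · intro a l hl
      have h12 := (hell l).1 ⟨a, hl⟩
      exact hxt l h12 (hcase l h12)
    · intro g u hu u' hu' huu hT
      apply hcase
      have hu0 : u ≠ 0 := fun h => by rw [h, zero_mul] at huu; exact zero_ne_one huu
      have hu0' : u' ≠ 0 := fun h => by rw [h, mul_zero] at huu; exact zero_ne_one huu
      have h13 := hw.isv.mul u u' hu0 hu0'
      rw [huu, u4_one hw.isv] at h13
      have h14 := hSG u ((C.mem_B _).1 hu) hu0
      have h15 := hSG u' ((C.mem_B _).1 hu') hu0'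
      have h16 : Ge w 0 (C.T g) := by
        rw [hT]
        exact u4_ge_add hw.isv (Or.inr (by linarith)) (Or.inr (by linarith))
      rcases h16 with h | h
      · rw [h, hw.isv.zero]
      · exact h
  · -- case II
    push Not at hcase
    obtain ⟨l1, hl1, hν1⟩ := hcase
    obtain ⟨a1, ha1⟩ := (hell l1).2 hl1
    obtain ⟨M, P, P', hM, hP, hP', hwP, hwP', hrP, hrP'⟩ := h3 p m k K G C δ (E4_cls hcls) hδ
      hnoW w hw.isv hw.triv W Z ty hZ (fun l a hl => (hell l).1 ⟨a, hl⟩) ⟨a1, l1, ha1, hν1⟩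
    have hed : ∀ u v, Z.Adj u v → ∀ l : G, l • u = u → l • v = v → δ l = 1 ∧ C.ν l = 1 := by
      intro u v huv l hlu hlv
      obtain ⟨g, hg⟩ := hedge u v huv
      obtain ⟨ψ, hψ⟩ := hg l hlu hlv
      obtain ⟨h17, h18⟩ := h4 p m k K G C w hw.isv hw.triv hSG hι hI M P P' hM hP hP' hwP hwP'
        hrP hrP' l g ψ hψ
      exact ⟨(hδ l).2 h18, h17⟩
    rcases h8 m G W C.c δ C.ν hcls C.cnt Z ty hZ hcf hed ⟨a1, l1, ha1, hν1⟩ with h | h
    · exact hnoW h
    obtain ⟨ι', H, i0, hsup, hfix, htriv, hsurj⟩ := h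
    obtain ⟨l0, hl0, hδ0, hν0⟩ := hsurj (Multiplicative.ofAdd 1) 1
    have hell' : ∀ i, ∀ l ∈ H i, 0 ≤ w (C.T l) := fun i l hl => (hell l).1 (hfix i l hl)
    have hEx0 : C.Ex l0 := hxt l0 (hell' i0 l0 hl0) hν0
    have hχ0 : C.χ l0 ^ 2 ≠ 1 := by
      rw [Ne, ← hδ, hδ0]
      intro h
      have h19 : (1 : ZMod m) = 0 := h
      have : Fact (1 < m) := ⟨hcls.two_le⟩
      exact one_ne_zero h19
    have htw := h10 p m k K G C l0 hEx0 hχ0
    have htwo : ∀ l, C.Ex l → C.χ l = 1 → C.T l = 2 := by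
      intro l hl h1
      rw [hl.2, h1, inv_one, Units.val_one, map_one]
      norm_num
    refine h5 G K C.T C.pc C.irr ι' H i0 hsup ?_ ?_
    · intro i hi l hl
      obtain ⟨hδl, hνl⟩ := htriv i hi l hl
      have hEx := hxt l (hell' i l hl) hνl
      have h20 := (hδ l).1 hδl
      have h21 : ((C.χ l : kˣ) : k) ^ 2 = 1 := by
        rw [← Units.val_pow_eq_pow_val, h20, Units.val_one]
      have h22 : (((C.χ l : kˣ) : k) - 1) * (((C.χ l : kˣ) : k) + 1) = 0 := by
        linear_combination h21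
      rcases mul_eq_zero.1 h22 with h | h
      · left
        exact htw l (htwo l hEx (Units.ext (sub_eq_zero.1 h)))
      · right
        have h23 : C.χ l = -1 := by
          apply Units.ext
          rw [Units.val_neg, Units.val_one]
          linear_combination h
        have h24 : C.T l = -2 := by
          rw [hEx.2, h23]
          have h25 : ((-1 : kˣ)⁻¹) = -1 := by
            rw [inv_neg, inv_one]
          rw [h25, Units.val_neg, Units.val_one, map_neg, map_one]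
          norm_num
        intro h'
        have h26 := htw (C.c * l) (by rw [hneg, h24, neg_neg]) h'
        rw [mul_assoc, hneg] at h26
        rw [← h26, neg_neg]
    · intro x hx y hy
      have hr : x * y * x⁻¹ * y⁻¹ ∈ H i0 :=
        (H i0).mul_mem ((H i0).mul_mem ((H i0).mul_mem hx hy) ((H i0).inv_mem hx))
          ((H i0).inv_mem hy)
      have hνr : C.ν (x * y * x⁻¹ * y⁻¹) = 1 := by
        rw [map_mul, map_mul, map_mul, map_inv, map_inv, mul_comm (C.ν x), mul_assoc (C.ν y),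
          mul_inv_cancel, mul_one, mul_inv_cancel]
      have hχr : C.χ (x * y * x⁻¹ * y⁻¹) = 1 := by
        rw [map_mul, map_mul, map_mul, map_inv, map_inv, mul_comm (C.χ x), mul_assoc (C.χ y),
          mul_inv_cancel, mul_one, mul_inv_cancel]
      exact htw _ (htwo _ (hxt _ (hell' i0 _ hr) hνr) hχr)

end Pool.Agent.CZE
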