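import Pool.Agent.Lib.MP_305fdd_al.CZ.E.Stm

set_option autoImplicit false

namespace Pool.Agent.CZE

open Pool.Agent.CZ Pool.Agent.F2Ch Pool.Agent.F2RF Pool.Agent.F2PF
open Pool.Agent.F2 (PC)
open Pool.Agent.F2D (Irr Disc EdgeElt)
open Pool.Agent.CZD (OntoW)
open Pool.Agent.PSL2Z (TreeAct)

private def ab_N {G K : Type} [Group G] [Field K] (T : G → K) : Subgroup G where
  carrier := {g | ∀ h, T (g * h) = T h}
  one_mem' := by intro h; rw [one_mul]
  mul_mem' := by
    intro a b ha hb h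
    rw [mul_assoc, ha, hb]
  inv_mem' := by
    intro a ha h
    have := ha (a⁻¹ * h)
    rw [mul_inv_cancel_left] at this
    exact this.symm

private theorem ab_mem {G K : Type} [Group G] [Field K] (T : G → K) (g : G) :
    g ∈ ab_N T ↔ ∀ h, T (g * h) = T h := Iff.rfl

private theorem ab_conj {G K : Type} [Group G] [Field K] {T : G → K} (hT : PC T) (x h : G) :
    T (x⁻¹ * h * x) = T h := by
  rw [hT.comm, mul_inv_cancel_left]

private theorem ab_normal {G K : Type} [Group G] [Field K] {T : G → K} (hT : PC T) :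
    (ab_N T).Normal := by
  constructor
  intro g hg x
  rw [ab_mem] at hg ⊢
  intro h
  have h1 : x * g * x⁻¹ * h = x * (g * x⁻¹ * h) := by group
  rw [h1, hT.comm, mul_assoc, mul_assoc, hg, ← mul_assoc, ab_conj hT]

private theorem ab_anti {G K : Type} [Group G] [Field K] {T : G → K} (hT : PC T) (g : G)
    (hg : ∀ h, T (g * h) = - T h) (x : G) : g * x * g⁻¹ * x⁻¹ ∈ ab_N T := by
  rw [ab_mem]
  intro h
  have hg' : ∀ y, T (g⁻¹ * y) = - T y := by
    intro y
    have := hg (g⁻¹ * y)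
    rw [mul_inv_cancel_left] at this
    rw [this, neg_neg]
  have h1 : g * x * g⁻¹ * x⁻¹ * h = g * (x * (g⁻¹ * x⁻¹ * h)) := by group
  rw [h1, hg, hT.comm, mul_assoc, mul_assoc, hg', neg_neg, ← mul_assoc, ab_conj hT]

theorem p_ab : S_ab := by
  intro G K _ _ T hT hirr ι H i0 hH h1 h2
  haveI := ab_normal hT
  have hor : ∀ g : G, ((∀ h, T (g * h) = T h) ∨ ∀ h, T (g * h) = - T h) → ∀ x : G,
      g * x * g⁻¹ * x⁻¹ ∈ ab_N T := by
    rintro g (hg | hg) x
    · have h3 : g * x * g⁻¹ * x⁻¹ = g * (x * g⁻¹ * x⁻¹) := by group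
      rw [h3]
      have hgm : g ∈ ab_N T := hg
      exact (ab_N T).mul_mem hgm ((ab_normal hT).conj_mem _ ((ab_N T).inv_mem hgm) x)
    · exact ab_anti hT g hg x
  have hgen : ∀ (i j : ι), ∀ x ∈ H i, ∀ y ∈ H j, x * y * x⁻¹ * y⁻¹ ∈ ab_N T := by
    intro i j x hx y hy
    by_cases hi : i = i0
    · by_cases hj : j = i0
      · subst hi
        subst hj
        exact fun h => h2 x hx y hy h
      · have h3 := (ab_N T).inv_mem (hor y (h1 j hj y hy) x)
        have h4 : (y * x * y⁻¹ * x⁻¹)⁻¹ = x * y * x⁻¹ * y⁻¹ := by group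
        rwa [h4] at h3
    · exact hor x (h1 i hi x hx) y
  have hcomm : ∀ x y : G, x * y * x⁻¹ * y⁻¹ ∈ ab_N T →
      (QuotientGroup.mk' (ab_N T) x) * (QuotientGroup.mk' (ab_N T) y) =
      (QuotientGroup.mk' (ab_N T) y) * (QuotientGroup.mk' (ab_N T) x) := by
    intro x y h
    have h3 : (QuotientGroup.mk' (ab_N T)) (x * y * x⁻¹ * y⁻¹) = 1 :=
      (QuotientGroup.eq_one_iff _).2 h
    rw [map_mul, map_mul, map_mul, map_inv, map_inv, mul_inv_eq_one, mul_inv_eq_iff_eq_mul] at h3
    exact h3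
  have hA : ∀ (j : ι), ∀ y ∈ H j, ∀ x : G,
      (QuotientGroup.mk' (ab_N T) x) * (QuotientGroup.mk' (ab_N T) y) =
      (QuotientGroup.mk' (ab_N T) y) * (QuotientGroup.mk' (ab_N T) x) := by
    intro j y hy
    have hle : (⨆ i, H i) ≤ (Subgroup.centralizer {QuotientGroup.mk' (ab_N T) y}).comap
        (QuotientGroup.mk' (ab_N T)) := by
      refine iSup_le fun i x hx => ?_
      rw [Subgroup.mem_comap, Subgroup.mem_centralizer_singleton_iff]
      exact hcomm x y (hgen i j x hx y hy)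
    intro x
    have hx : x ∈ (⨆ i, H i) := by rw [hH]; trivial
    have := hle hx
    rw [Subgroup.mem_comap, Subgroup.mem_centralizer_singleton_iff] at this
    exact this
  have hB : ∀ x y : G, (QuotientGroup.mk' (ab_N T) x) * (QuotientGroup.mk' (ab_N T) y) =
      (QuotientGroup.mk' (ab_N T) y) * (QuotientGroup.mk' (ab_N T) x) := by
    intro x
    have hle : (⨆ i, H i) ≤ (Subgroup.centralizer {QuotientGroup.mk' (ab_N T) x}).comap
        (QuotientGroup.mk' (ab_N T)) := by
      refine iSup_le fun j y hy => ?_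
      rw [Subgroup.mem_comap, Subgroup.mem_centralizer_singleton_iff]
      exact (hA j y hy x).symm
    intro y
    have hy : y ∈ (⨆ i, H i) := by rw [hH]; trivial
    have := hle hy
    rw [Subgroup.mem_comap, Subgroup.mem_centralizer_singleton_iff] at this
    exact this.symm
  obtain ⟨g, h, hgh⟩ := hirr
  apply hgh
  have h3 : g * h * g⁻¹ * h⁻¹ ∈ ab_N T := by
    rw [← QuotientGroup.eq_one_iff]
    show QuotientGroup.mk' (ab_N T) (g * h * g⁻¹ * h⁻¹) = 1
    rw [map_mul, map_mul, map_mul, map_inv, map_inv, mul_inv_eq_one, mul_inv_eq_iff_eq_mul]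
    exact hB g h
  have h4 := h3 1
  rw [mul_one, hT.one] at h4
  exact h4

end Pool.Agent.CZE
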