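import Pool.Agent.Lib.MP_305fdd_al.CZ.E.Stm

/-!
# MP_305fdd_al (`C_m * Z`), section E: piece ed (the residual eigenvalue of an edge element)
-/

set_option autoImplicit false

namespace Pool.Agent.CZE

open Pool.Agent.CZ Pool.Agent.F2Ch Pool.Agent.F2RF Pool.Agent.F2PF
open Pool.Agent.F2 (PC)
open Pool.Agent.F2D (Irr Disc EdgeElt)
open Pool.Agent.CZD (OntoW)
open Pool.Agent.PSL2Z (TreeAct)

section

variable {K : Type} [Field K] {w : K → ℝ}

private theorem ed_one (hw : IsV w) : w 1 = 0 := by
  have h := hw.mul 1 1 one_ne_zero one_ne_zero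
  rw [one_mul] at h
  linarith

private theorem ed_neg_one (hw : IsV w) : w (-1) = 0 := by
  have h0 : (-1 : K) ≠ 0 := neg_ne_zero.2 one_ne_zero
  have h := hw.mul (-1) (-1) h0 h0
  rw [neg_mul_neg, one_mul, ed_one hw] at h
  linarith

private theorem ed_neg (hw : IsV w) (f : K) : w (-f) = w f := by
  by_cases hf : f = 0
  · rw [hf, neg_zero]
  · have h := hw.mul (-1) f (neg_ne_zero.2 one_ne_zero) hf
    rw [neg_one_mul, ed_neg_one hw, zero_add] at h
    exact h

private theorem ed_gt_neg (hw : IsV w) {c : ℝ} {f : K} (hf : Gt w c f) : Gt w c (-f) := by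
  rcases hf with h | h
  · exact Or.inl (by rw [h, neg_zero])
  · exact Or.inr (by rw [ed_neg hw]; exact h)

private theorem ed_gt_add (hw : IsV w) {c : ℝ} {f g : K} (hf : Gt w c f) (hg : Gt w c g) :
    Gt w c (f + g) := by
  by_cases h0 : f + g = 0
  · exact Or.inl h0
  rcases hf with h | h
  · rw [h, zero_add]
    exact hg
  rcases hg with h' | h'
  · rw [h', add_zero]
    exact Or.inr h
  by_cases hf0 : f = 0
  · rw [hf0, zero_add]
    exact Or.inr h'
  by_cases hg0 : g = 0
  · rw [hg0, add_zero]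
    exact Or.inr h
  exact Or.inr (lt_of_lt_of_le (lt_min h h') (hw.add f g hf0 hg0 h0))

private theorem ed_gt_cancel (hw : IsV w) {a t : K} (ht : t ≠ 0) (h : Gt w (w t) (a * t)) :
    Gt w 0 a := by
  by_cases ha : a = 0
  · exact Or.inl ha
  rcases h with h | h
  · exact absurd h (mul_ne_zero ha ht)
  · rw [hw.mul a t ha ht] at h
    exact Or.inr (by linarith)

end

theorem p_ed : S_ed := by
  intro K G _ _ T w ι hT hw hι hwι l g ψ he
  have ht : T g ≠ 0 := by
    intro h0
    have h := he.hyp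
    rw [h0, hw.zero] at h
    exact lt_irrefl _ h
  constructor
  · have h1 := he.lead 1
    rw [zpow_one, zpow_one] at h1
    have h2 : Gt w (w (T g)) (ι (T (g * l) - ψ * T g)) := by
      rcases h1 with h | h
      · exact Or.inl (by rw [h, map_zero])
      · exact Or.inr (by rw [hwι]; exact h)
    rw [map_sub, map_mul, hι, hι] at h2
    apply ed_gt_cancel hw ht
    have h3 := ed_gt_add hw h2 (ed_gt_neg hw h1)
    have h4 : T (g * l) - ι ψ * T g + -(T (g * l) - ψ * T g) = (ψ - ι ψ) * T g := by ring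
    rw [h4] at h3
    exact h3
  · intro j
    apply ed_gt_cancel hw ht
    have h1 := he.lead j
    have h2 := he.lead (-j)
    have h3 := hT.rel g (l ^ j)
    rw [← zpow_neg] at h3
    have h4 := ed_gt_add hw h1 h2
    have h5 : T (g * l ^ j) - ψ ^ j * T g + (T (g * l ^ (-j)) - ψ ^ (-j) * T g)
        = (T (l ^ j) - (ψ ^ j + ψ ^ (-j))) * T g := by
      linear_combination h3
    rw [h5] at h4
    exact h4

end Pool.Agent.CZE
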