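import Pool.Agent.Lib.MP_305fdd_al.CZ.E.Stm

/-!
# MP_305fdd_al (`C_m * Z`), section E, piece [CZE ell]: elliptic elements of a valuation of rational rank two
-/

set_option autoImplicit false

namespace Pool.Agent.CZE

open Pool.Agent.CZ Pool.Agent.F2Ch Pool.Agent.F2RF Pool.Agent.F2PF
open Pool.Agent.F2 (PC)
open Pool.Agent.F2D (Irr Disc EdgeElt)
open Pool.Agent.CZD (OntoW)
open Pool.Agent.PSL2Z (TreeAct)

private theorem ell_cs_rr {k : Type} [Field k] (z : kˣ) (n : ℤ) (hn : n ≠ 0) : cs (rr z n) = 0 := by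
  unfold cs rr
  rw [AddMonoidAlgebra.coeff_add, AddMonoidAlgebra.coeff_single, AddMonoidAlgebra.coeff_single,
    Finsupp.add_apply, Finsupp.single_eq_of_ne (by omega), Finsupp.single_eq_of_ne (by omega),
    add_zero]

private theorem ell_cs_sq {k : Type} [Field k] (z : kˣ) (n : ℤ) (hn : n ≠ 0) :
    cs (rr z n * rr z n) = 2 := by
  unfold cs rr
  rw [add_mul, mul_add, mul_add, AddMonoidAlgebra.single_mul_single,
    AddMonoidAlgebra.single_mul_single, AddMonoidAlgebra.single_mul_single,
    AddMonoidAlgebra.single_mul_single]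
  simp only [AddMonoidAlgebra.coeff_add, AddMonoidAlgebra.coeff_single, Finsupp.add_apply]
  rw [Finsupp.single_eq_of_ne (by omega), Finsupp.single_eq_of_ne (a := -n + -n) (by omega)]
  have e1 : n + -n = 0 := by omega
  have e2 : -n + n = 0 := by omega
  rw [e1, e2, Finsupp.single_eq_same, Finsupp.single_eq_same]
  have e3 : ((z⁻¹ : kˣ) : k) * (z : k) = 1 := by rw [← Units.val_mul, inv_mul_cancel, Units.val_one]
  have e4 : (z : k) * ((z⁻¹ : kˣ) : k) = 1 := by rw [← Units.val_mul, mul_inv_cancel, Units.val_one]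
  rw [e3, e4]
  norm_num

private theorem ell_rr_zero {k : Type} [Field k] (z : kˣ) :
    rr z 0 = algebraMap k (Ls k) ((z : k) + ((z⁻¹ : kˣ) : k)) := by
  unfold rr
  ext a
  by_cases ha : a = 0
  · subst ha
    simp [add_comm]
  · simp [ha]

private theorem ell_cs_alg {k : Type} [Field k] (a : k) : cs (algebraMap k (Ls k) a) = a := by
  unfold cs
  simp

private theorem ell_cs_sub {k : Type} [Field k] (a b : Ls k) : cs (a - b) = cs a - cs b := by
  unfold cs
  rw [AddMonoidAlgebra.coeff_sub, Finsupp.sub_apply]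

/-- [CZE ell] -/
theorem p_ell (h0 : I_pos) (h1 : I_rk) : S_ell := by
  intro p m _ k K G _ _ _ _ _ _ C Γ _ _ _ V hV hrk
  have hpos := h0 p m k K G C Γ V hV
  have hrk' := h1 p m k K G C Γ V hV hrk
  have h20 : (2 : k) ≠ 0 := by
    intro h
    have h1 : ((2 : ℕ) : k) = 0 := by exact_mod_cast h
    rw [CharP.cast_eq_zero_iff k p] at h1
    have h2 := (Nat.prime_dvd_prime_iff_eq (Fact.out : p.Prime) Nat.prime_two).1 h1
    exact C.odd h2
  -- an element of value zero is a constant, up to positive elements, equal to its constant term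
  have key : ∀ f : C.B, (f : K) ≠ 0 → V (f : K) = 0 → cs (C.res f) ≠ 0 ∧
      Gt V 0 ((f : K) - algebraMap k K (cs (C.res f))) := by
    intro f hf hVf
    obtain ⟨a, ha, hgt⟩ := hrk' f hf hVf
    have hcs : cs (C.res (f - algebraMap k C.B a)) = cs (C.res f) - a := by
      rw [map_sub, AlgHom.commutes, ell_cs_sub, ell_cs_alg]
    have hz : cs (C.res f) - a = 0 := by
      rcases hgt with h | h
      · have h2 : f - algebraMap k C.B a = 0 := Subtype.ext h
        rw [← hcs, h2, map_zero]
        rfl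
      · by_cases h3 : ((f - algebraMap k C.B a : C.B) : K) = 0
        · have h2 : f - algebraMap k C.B a = 0 := Subtype.ext h3
          rw [← hcs, h2, map_zero]
          rfl
        · rw [← hcs]
          exact hpos _ h3 h
    have hz' : cs (C.res f) = a := sub_eq_zero.1 hz
    rw [hz']
    exact ⟨ha, hgt⟩
  refine ⟨?_, ?_⟩
  · rintro f ⟨hf, hfB, hfr⟩ hVf
    have h2 := (key ⟨f, hfB⟩ hf hVf).1
    apply h2
    rw [hfr]
    rfl
  · intro l hl
    have hTB : C.res (C.TB l) = rr (C.χ l) (Multiplicative.toAdd (C.ν l)) := C.res_T l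
    have hTBc : ((C.TB l : C.B) : K) = C.T l := rfl
    have hν : Multiplicative.toAdd (C.ν l) = 0 := by
      by_contra hn
      have hc0 : cs (C.res (C.TB l)) = 0 := by rw [hTB]; exact ell_cs_rr _ _ hn
      have hc2 : cs (C.res (C.TB l * C.TB l)) = 2 := by rw [map_mul, hTB]; exact ell_cs_sq _ _ hn
      have hT0 : C.T l ≠ 0 := by
        intro h
        have h3 : C.TB l = 0 := Subtype.ext h
        rw [h3, zero_mul, map_zero] at hc2
        exact h20 hc2.symm
      have hT2 : ((C.TB l * C.TB l : C.B) : K) = C.T l * C.T l := rfl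
      rcases hl.lt_or_eq with h | h
      · have h4 : 0 < V ((C.TB l * C.TB l : C.B) : K) := by
          rw [hT2, hV.isv.mul _ _ hT0 hT0]
          exact add_pos h h
        have h5 := hpos (C.TB l * C.TB l) (by rw [hT2]; exact mul_ne_zero hT0 hT0) h4
        rw [hc2] at h5
        exact h20 h5
      · exact (key (C.TB l) hT0 h.symm).1 hc0
    refine ⟨?_, ?_⟩
    · exact Multiplicative.toAdd.injective hν
    · have hcs : cs (C.res (C.TB l)) = (C.χ l : k) + ((C.χ l)⁻¹ : kˣ) := by
        rw [hTB, hν, ell_rr_zero, ell_cs_alg]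
      rw [← map_add, ← hcs]
      by_cases hT0 : C.T l = 0
      · left
        have h3 : C.TB l = 0 := Subtype.ext hT0
        have h4 : cs (C.res (C.TB l)) = 0 := by rw [h3, map_zero]; rfl
        rw [h4, map_zero, hT0, sub_zero]
      · rcases hl.lt_or_eq with h | h
        · right
          rw [hpos (C.TB l) hT0 h, map_zero, sub_zero]
          exact h
        · exact (key (C.TB l) hT0 h.symm).2

end Pool.Agent.CZE
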