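import Pool.Agent.Lib.MP_305fdd_al.CZ.E.Stm

/-!
# MP_305fdd_al (`C_m * Z`), section E, piece [CZE fl]: a flag has rational rank two
-/

set_option autoImplicit false

namespace Pool.Agent.CZE

open Pool.Agent.CZ Pool.Agent.F2Ch Pool.Agent.F2RF Pool.Agent.F2PF
open Pool.Agent.F2 (PC)
open Pool.Agent.F2D (Irr Disc EdgeElt)
open Pool.Agent.CZD (OntoW)
open Pool.Agent.PSL2Z (TreeAct)

/-- the first component -/
private def fl_fst : ℝ ×ₗ ℝ →+ ℝ where
  toFun a := (ofLex a).1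
  map_zero' := rfl
  map_add' _ _ := rfl

/-- the second component -/
private def fl_snd : ℝ ×ₗ ℝ →+ ℝ where
  toFun a := (ofLex a).2
  map_zero' := rfl
  map_add' _ _ := rfl

/-- [CZE fl] -/
theorem p_fl : S_fl := by
  intro p k K _ _ _ φ w V hV hw
  obtain ⟨x1, hx1⟩ := hw
  obtain ⟨x2, hx2, hwx2, hcx2⟩ := hV.nt
  have hw0 : w 0 = 0 := by rw [← hV.fst 0, hV.inz.isv.zero]; rfl
  have hx1' : x1 ≠ 0 := by rintro rfl; exact hx1 hw0
  have hlt : ∀ f, 0 < V f ↔ 0 < w f ∨ (w f = 0 ∧ 0 < c2 V f) := by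
    intro f
    rw [Prod.Lex.lt_iff, hV.fst f]
    constructor
    · rintro (h | ⟨h, h'⟩)
      · exact Or.inl h
      · exact Or.inr ⟨h.symm, h'⟩
    · rintro (h | ⟨h, h'⟩)
      · exact Or.inl h
      · exact Or.inr ⟨h.symm, h'⟩
  have hle : ∀ f, 0 ≤ V f ↔ 0 < w f ∨ (w f = 0 ∧ 0 ≤ c2 V f) := by
    intro f
    rw [Prod.Lex.le_iff, hV.fst f]
    constructor
    · rintro (h | ⟨h, h'⟩)
      · exact Or.inl h
      · exact Or.inr ⟨h.symm, h'⟩
    · rintro (h | ⟨h, h'⟩)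
      · exact Or.inl h
      · exact Or.inr ⟨h.symm, h'⟩
  refine ⟨⟨x1, x2, hx1', hx2, ?_⟩, ?_, ?_, ?_⟩
  · intro a b hab
    have h1 : a • w x1 + b • w x2 = 0 := by
      have h2 := congrArg fl_fst hab
      rw [map_add, map_zsmul, map_zsmul, map_zero] at h2
      have h3 : fl_fst (V x1) = w x1 := hV.fst x1
      have h4 : fl_fst (V x2) = w x2 := hV.fst x2
      rwa [h3, h4] at h2
    rw [hwx2, smul_zero, add_zero, zsmul_eq_mul] at h1
    have ha : a = 0 := by
      rcases mul_eq_zero.1 h1 with h | h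
      · exact_mod_cast h
      · exact absurd h hx1
    have h2 : b • c2 V x2 = 0 := by
      have h3 := congrArg fl_snd hab
      rw [map_add, map_zsmul, map_zsmul, map_zero, ha, zero_smul, zero_add] at h3
      exact h3
    rw [zsmul_eq_mul] at h2
    refine ⟨ha, ?_⟩
    rcases mul_eq_zero.1 h2 with h | h
    · exact_mod_cast h
    · exact absurd h hcx2
  · intro f hf
    exact (hlt f).2 (Or.inl hf)
  · intro f hf
    rcases (hle f).1 hf with h | ⟨h, -⟩
    · exact h.le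
    · exact h.ge
  · intro f hf
    refine ⟨?_, ?_⟩
    · rw [hle f, hf]
      simp
    · rw [hlt f, hf]
      simp

end Pool.Agent.CZE
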