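import Pool.Agent.Lib.MP_305fdd_al.CZ.E.Stm

/-!
# MP_305fdd_al (`C_m * Z`), section E, piece [CZE inf]: a valuation at infinity is negative on some trace
-/

set_option autoImplicit false

namespace Pool.Agent.CZE

open Pool.Agent.CZ Pool.Agent.F2Ch Pool.Agent.F2RF Pool.Agent.F2PF
open Pool.Agent.F2 (PC)
open Pool.Agent.F2D (Irr Disc EdgeElt)
open Pool.Agent.CZD (OntoW)
open Pool.Agent.PSL2Z (TreeAct)

/-- [CZE inf] -/
theorem p_inf : S_inf := by
  intro p m _ k K G _ _ _ _ _ _ C w hw htr hinf
  by_contra hcon
  push Not at hcon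
  let S : Subalgebra k K :=
    { carrier := {x | Ge w 0 x}
      mul_mem' := by
        intro a b ha hb
        show Ge w 0 (a * b)
        by_cases ha0 : a = 0
        · left; rw [ha0, zero_mul]
        by_cases hb0 : b = 0
        · left; rw [hb0, mul_zero]
        right
        have h1 : 0 ≤ w a := ha.resolve_left ha0
        have h2 : 0 ≤ w b := hb.resolve_left hb0
        rw [hw.mul a b ha0 hb0]
        exact add_nonneg h1 h2
      add_mem' := by
        intro a b ha hb
        show Ge w 0 (a + b)
        by_cases ha0 : a = 0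
        · rw [ha0, zero_add]; exact hb
        by_cases hb0 : b = 0
        · rw [hb0, add_zero]; exact ha
        by_cases hab : a + b = 0
        · left; exact hab
        right
        have h1 : 0 ≤ w a := ha.resolve_left ha0
        have h2 : 0 ≤ w b := hb.resolve_left hb0
        exact (le_min h1 h2).trans (hw.add a b ha0 hb0 hab)
      algebraMap_mem' := fun c => Or.inr (htr c).ge }
  have hB : C.B ≤ S := by
    rw [← C.adj]
    apply Algebra.adjoin_le
    rintro _ ⟨g, rfl⟩
    exact Or.inr (hcon g)
  obtain ⟨f, hf, hf0, hwf⟩ := hinf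
  rcases hB ((C.mem_B f).2 hf) with h | h
  · exact hf0 h
  · exact absurd hwf (not_lt.2 h)

end Pool.Agent.CZE
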