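import Pool.Agent.Lib.MP_305fdd_al.CZ.E.Stm

set_option autoImplicit false

namespace Pool.Agent.CZE

open Pool.Agent.CZ Pool.Agent.F2Ch Pool.Agent.F2RF Pool.Agent.F2PF
open Pool.Agent.F2 (PC)
open Pool.Agent.F2D (Irr Disc EdgeElt)
open Pool.Agent.CZD (OntoW)
open Pool.Agent.PSL2Z (TreeAct)

private theorem neg_two {p : ℕ} {k K : Type} [Field k] [CharP k p] [Field K] [Algebra k K]
    (hp : p.Prime) (h2 : p ≠ 2) : (2 : K) ≠ 0 := by
  have h1 : (2 : k) ≠ 0 := by
    intro h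
    have h3 : ((2 : ℕ) : k) = 0 := by exact_mod_cast h
    have h4 : p ∣ 2 := (CharP.cast_eq_zero_iff k p 2).1 h3
    exact h2 ((Nat.prime_dvd_prime_iff_eq hp Nat.prime_two).1 h4)
  intro h
  apply h1
  apply (algebraMap k K).injective
  rw [map_ofNat, map_zero, h]

theorem p_neg : S_neg := by
  intro p m hp k K G _ _ _ _ _ _ C h
  have hT := C.pc
  have hinv : ∀ x, C.T x⁻¹ = C.T x := by
    intro x
    have := hT.rel 1 x
    rw [one_mul, one_mul, hT.one] at this
    linear_combination this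
  have hc : C.c⁻¹ = C.c := inv_eq_of_mul_eq_one_right C.c_sq
  have h1 : C.T (C.c * h⁻¹) = C.T (C.c * h) := by
    rw [← hinv (C.c * h⁻¹), mul_inv_rev, inv_inv, hc, hT.comm]
  have h2 := hT.rel C.c h
  rw [h1, C.T_c] at h2
  have h3 : (2 : K) ≠ 0 := neg_two (k := k) hp.out C.odd
  apply mul_left_cancel₀ h3
  linear_combination h2

end Pool.Agent.CZE
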