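import Pool.Agent.Lib.MP_305fdd_al.CZ.E.Stm

/-!
# MP_305fdd_al (`C_m * Z`), section E, piece [CZE per]: every element is fixed by a power of `ι`
-/

set_option autoImplicit false

namespace Pool.Agent.CZE

open Pool.Agent.CZ Pool.Agent.F2Ch Pool.Agent.F2RF Pool.Agent.F2PF
open Pool.Agent.F2 (PC)
open Pool.Agent.F2D (Irr Disc EdgeElt)
open Pool.Agent.CZD (OntoW)
open Pool.Agent.PSL2Z (TreeAct)
open MvPolynomial

private theorem per_iter {k K : Type} [Field k] [Field K] [Algebra k K] {p : ℕ} (ι : K ≃+* K)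
    (hι : ∀ c : k, ι (algebraMap k K c) = algebraMap k K (c ^ p)) (N : ℕ) (c : k) :
    ι^[N] (algebraMap k K c) = algebraMap k K (c ^ p ^ N) := by
  induction N with
  | zero => simp
  | succ N ih =>
    rw [Function.iterate_succ_apply', ih, hι, ← pow_mul, ← pow_succ]

/-- [CZE per] -/
theorem p_per : S_per := by
  intro p m _ k K G _ _ _ _ _ _ C f
  let S : Subalgebra k K :=
    { carrier := {x | ∃ N, 0 < N ∧ Function.IsPeriodicPt C.ι N x}
      mul_mem' := by
        rintro a b ⟨N, hN, ha⟩ ⟨M, hM, hb⟩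
        refine ⟨N * M, Nat.mul_pos hN hM, ?_⟩
        have h1 : C.ι^[N * M] a = a := ha.mul_const M
        have h2 : C.ι^[N * M] b = b := hb.const_mul N
        show C.ι^[N * M] (a * b) = a * b
        rw [iterate_map_mul, h1, h2]
      add_mem' := by
        rintro a b ⟨N, hN, ha⟩ ⟨M, hM, hb⟩
        refine ⟨N * M, Nat.mul_pos hN hM, ?_⟩
        have h1 : C.ι^[N * M] a = a := ha.mul_const M
        have h2 : C.ι^[N * M] b = b := hb.const_mul N
        show C.ι^[N * M] (a + b) = a + b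
        rw [iterate_map_add, h1, h2]
      algebraMap_mem' := by
        intro c
        obtain ⟨N, hN, hc⟩ := C.alg c
        refine ⟨N, hN, ?_⟩
        show C.ι^[N] (algebraMap k K c) = algebraMap k K c
        rw [per_iter C.ι C.ι_k, hc] }
  have hB : C.B ≤ S := by
    rw [← C.adj]
    apply Algebra.adjoin_le
    rintro _ ⟨g, rfl⟩
    exact ⟨1, one_pos, C.ι_T g⟩
  obtain ⟨a, b, hb0, hab⟩ := C.fracgen f
  obtain ⟨N, hN, ha⟩ := hB ((C.mem_B _).2 ⟨a, rfl⟩)
  obtain ⟨M, hM, hb⟩ := hB ((C.mem_B _).2 ⟨b, rfl⟩)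
  refine ⟨N * M, Nat.mul_pos hN hM, ?_⟩
  have h1 : C.ι^[N * M] (aeval C.t a) = aeval C.t a := ha.mul_const M
  have h2 : C.ι^[N * M] (aeval C.t b) = aeval C.t b := hb.const_mul N
  have h3 := congrArg (C.ι^[N * M]) hab
  rw [iterate_map_mul, h1, h2, ← hab] at h3
  exact mul_right_cancel₀ hb0 h3

end Pool.Agent.CZE
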