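import Pool.Agent.Lib.MP_305fdd_al.CZ.E.Stm

/-!
# [CZE sn] Two independent symmetric elements
-/

set_option autoImplicit false

namespace Pool.Agent.CZE

open Pool.Agent.CZ Pool.Agent.F2Ch Pool.Agent.F2RF Pool.Agent.F2PF
open Pool.Agent.F2 (PC)
open Pool.Agent.F2D (Irr Disc EdgeElt)
open Pool.Agent.CZD (OntoW)
open Pool.Agent.PSL2Z (TreeAct)

private theorem sn_rr {k : Type} [Field k] (z : kˣ) (n : ℤ) :
    rr z n = ((z : k)⁻¹) • (AddMonoidAlgebra.single n (1 : k) : Ls k) +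
      (z : k) • (AddMonoidAlgebra.single (-n) (1 : k) : Ls k) := by
  unfold rr
  rw [AddMonoidAlgebra.smul_single, AddMonoidAlgebra.smul_single, smul_eq_mul, smul_eq_mul,
    mul_one, mul_one, Units.val_inv_eq_inv_val]

theorem p_sn : S_sn := by
  intro k _ S z1 z2 n hne h1 h2
  rw [sn_rr] at h1 h2
  generalize (AddMonoidAlgebra.single n (1 : k) : Ls k) = X at h1 h2 ⊢
  generalize (AddMonoidAlgebra.single (-n) (1 : k) : Ls k) = Y at h1 h2 ⊢
  have ha : (z1 : k) ≠ 0 := z1.ne_zero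
  have hb : (z2 : k) ≠ 0 := z2.ne_zero
  have hd : (z2 : k) * (z1 : k)⁻¹ - (z1 : k) * (z2 : k)⁻¹ ≠ 0 := by
    intro h
    apply hne
    apply Units.ext
    rw [Units.val_pow_eq_pow_val, Units.val_pow_eq_pow_val]
    field_simp at h
    linear_combination -h
  generalize (z1 : k) = a at h1 ha hd
  generalize (z2 : k) = b at h2 hb hd
  have e1 : (b * a⁻¹ - a * b⁻¹) • X = b • (a⁻¹ • X + a • Y) - a • (b⁻¹ • X + b • Y) := by
    module
  have e2 : (b * a⁻¹ - a * b⁻¹) • Y = a⁻¹ • (b⁻¹ • X + b • Y) - b⁻¹ • (a⁻¹ • X + a • Y) := by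
    module
  have s1 : (b * a⁻¹ - a * b⁻¹) • X ∈ S := by
    rw [e1]
    exact S.sub_mem (S.smul_mem _ h1) (S.smul_mem _ h2)
  have s2 : (b * a⁻¹ - a * b⁻¹) • Y ∈ S := by
    rw [e2]
    exact S.sub_mem (S.smul_mem _ h2) (S.smul_mem _ h1)
  exact ⟨(S.smul_mem_iff hd).1 s1, (S.smul_mem_iff hd).1 s2⟩

end Pool.Agent.CZE
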