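import Pool.Agent.Lib.MP_305fdd_al.CZ.E.Stm

/-!
# MP_305fdd_al, `C_m * Z`, section E: an `ι`-fixed residual eigenvalue which is a root of unity
-/

set_option autoImplicit false

namespace Pool.Agent.CZE

open Pool.Agent.CZ Pool.Agent.F2Ch Pool.Agent.F2RF Pool.Agent.F2PF
open Pool.Agent.F2 (PC)
open Pool.Agent.F2D (Irr Disc EdgeElt)
open Pool.Agent.CZD (OntoW)
open Pool.Agent.PSL2Z (TreeAct)

section
variable {K : Type} [Field K] {w : K → ℝ}

private theorem sq_gt_add (hw : IsV w) {x y : K} (hx : Gt w 0 x) (hy : Gt w 0 y) :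
    Gt w 0 (x + y) := by
  by_cases hx0 : x = 0
  · rw [hx0, zero_add]; exact hy
  by_cases hy0 : y = 0
  · rw [hy0, add_zero]; exact hx
  by_cases hxy : x + y = 0
  · exact Or.inl hxy
  right
  have h1 := hx.resolve_left hx0
  have h2 := hy.resolve_left hy0
  exact lt_of_lt_of_le (lt_min h1 h2) (hw.add x y hx0 hy0 hxy)

private theorem sq_gt_neg (k : Type) [Field k] [Algebra k K] (hw : IsV w) (ht : Triv k w) {x : K}
    (hx : Gt w 0 x) : Gt w 0 (-x) := by
  rcases hx with h | h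
  · left; rw [h, neg_zero]
  · by_cases hx0 : x = 0
    · left; rw [hx0, neg_zero]
    right
    have h1 : -x = algebraMap k K (-1) * x := by rw [map_neg, map_one, neg_one_mul]
    have h2 : algebraMap k K (-1) ≠ 0 := by
      rw [map_neg, map_one]
      exact neg_ne_zero.2 one_ne_zero
    rw [h1, hw.mul _ _ h2 hx0, ht, zero_add]
    exact h

end

theorem p_sq (h0 : S_zz) : S_sq := by
  intro p m _ k K G _ _ _ _ _ _ C w hw ht hι ψ l hψ0 hψw hψι hψ
  have hz0 : ∀ z : kˣ, algebraMap k K (z : k) ≠ 0 := fun z h =>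
    z.ne_zero ((map_eq_zero (algebraMap k K)).1 h)
  have hinv : ∀ z : kˣ, (algebraMap k K (z : k))⁻¹ = algebraMap k K ((z⁻¹ : kˣ) : k) := by
    intro z
    rw [Units.val_inv_eq_inv_val, map_inv₀]
  -- the claim for a root of unity `z1` which is congruent to `ψ`
  have key : ∀ z1 : kˣ, z1 ^ (2 * m) = 1 → Gt w 0 (ψ - algebraMap k K (z1 : k)) →
      z1 ^ 2 = 1 := by
    intro z1 hz1 hg
    have hp : z1 ^ p = z1⁻¹ := by
      obtain ⟨c, hc⟩ := C.hpm
      have h1 : z1 ^ p * z1 = 1 := by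
        rw [← pow_succ, hc, pow_mul, hz1, one_pow]
      exact eq_inv_of_mul_eq_one_left h1
    have h1 : Gt w 0 (C.ι ψ - algebraMap k K ((z1⁻¹ : kˣ) : k)) := by
      have h2 : C.ι (ψ - algebraMap k K (z1 : k)) = C.ι ψ - algebraMap k K ((z1⁻¹ : kˣ) : k) := by
        rw [map_sub, C.ι_k, ← hp, Units.val_pow_eq_pow_val]
      rw [← h2]
      rcases hg with h3 | h3
      · left; rw [h3, map_zero]
      · right; rw [hι]; exact h3
    have h3 := sq_gt_add hw (sq_gt_add hw (sq_gt_neg k hw ht hg) hψι) h1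
    have h4 : -(ψ - algebraMap k K (z1 : k)) + (ψ - C.ι ψ) +
        (C.ι ψ - algebraMap k K ((z1⁻¹ : kˣ) : k)) =
        algebraMap k K ((z1 : k) - ((z1⁻¹ : kˣ) : k)) := by
      rw [map_sub]; ring
    rw [h4] at h3
    rcases h3 with h5 | h5
    · have h6 := (map_eq_zero (algebraMap k K)).1 h5
      have h7 : z1 = z1⁻¹ := Units.ext (sub_eq_zero.1 h6)
      rw [pow_two]
      nth_rewrite 2 [h7]
      exact mul_inv_cancel z1
    · rw [ht] at h5
      exact absurd h5 (lt_irrefl _)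
  have hz := C.χ_pow l
  rcases h0 K ℝ w hw ψ (algebraMap k K (C.χ l : k)) hψ0 (hz0 _) hψw (ht _)
    (by rw [hinv]; exact hψ) with h1 | h1
  · exact key _ hz h1
  · rw [hinv] at h1
    have h2 := key (C.χ l)⁻¹ (by rw [inv_pow, hz, inv_one]) h1
    rw [inv_pow] at h2
    exact inv_eq_one.1 h2

end Pool.Agent.CZE
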