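import Pool.Agent.Lib.MP_305fdd_al.CZ.E.Stm

/-!
# MP_305fdd_al, [CZE w2]: a nonconstant unit of the ring at w
-/

set_option autoImplicit false

namespace Pool.Agent.CZE

open Pool.Agent.CZ Pool.Agent.F2Ch Pool.Agent.F2RF Pool.Agent.F2PF
open Pool.Agent.F2 (PC)
open Pool.Agent.F2D (Irr Disc EdgeElt)
open Pool.Agent.CZD (OntoW)

open Pool.Agent.PSL2Z (TreeAct)

private theorem w2_add {K : Type} [Field K] {w : K → ℝ} (hw : IsV w) {x y : K} (hx : 0 ≤ w x)
    (hy : 0 ≤ w y) : 0 ≤ w (x + y) := by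
  by_cases hx0 : x = 0
  · rw [hx0, zero_add]; exact hy
  by_cases hy0 : y = 0
  · rw [hy0, add_zero]; exact hx
  by_cases hxy : x + y = 0
  · rw [hxy, hw.zero]
  exact (le_min hx hy).trans (hw.add x y hx0 hy0 hxy)

/-- the restrictions of the elements of `B` with value `≥ 0` -/
private def w2_S {p m : ℕ} [Fact p.Prime] {k K G : Type} [Field k] [CharP k p] [IsAlgClosed k]
    [Field K] [Algebra k K] [Group G] (C : Core p m k K G) (w : K → ℝ) (hw : IsV w)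
    (htr : Triv k w) : Submodule k (Ls k) where
  carrier := {a | ∃ f : C.B, C.res f = a ∧ 0 ≤ w (f : K)}
  zero_mem' := ⟨0, map_zero _, by rw [ZeroMemClass.coe_zero, hw.zero]⟩
  add_mem' := by
    rintro a b ⟨f, rfl, hf⟩ ⟨g, rfl, hg⟩
    exact ⟨f + g, map_add _ _ _, w2_add hw hf hg⟩
  smul_mem' := by
    rintro c _ ⟨f, rfl, hf⟩
    refine ⟨c • f, map_smul _ _ _, ?_⟩
    have e : ((c • f : C.B) : K) = algebraMap k K c * (f : K) := by
      rw [← Algebra.smul_def]; rfl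
    rw [e]
    by_cases hc : algebraMap k K c = 0
    · rw [hc, zero_mul, hw.zero]
    by_cases hf0 : (f : K) = 0
    · rw [hf0, mul_zero, hw.zero]
    rw [hw.mul _ _ hc hf0, htr c, zero_add]
    exact hf

private theorem w2_ne {p m : ℕ} [Fact p.Prime] {k K G : Type} [Field k] [CharP k p]
    [IsAlgClosed k] [Field K] [Algebra k K] [Group G] (C : Core p m k K G) (P : C.B) (M : ℤ)
    (h : C.res P = AddMonoidAlgebra.single M 1) : (P : K) ≠ 0 := by
  intro h0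
  have hP : P = 0 := Subtype.ext h0
  rw [hP, map_zero] at h
  have h1 := congrArg (fun a : Ls k => a.coeff M) h
  simp at h1

theorem p_w2 (h0 : S_sn) (h1 : CZD.S_TL) (hhz : CZ.S_hz) : S_w2 := by
  intro p m _ k K G _ _ _ _ _ _ C δ hcls hδ hno w hw htr V _ X ty hta hell hex
  have hpair : ∃ (u v : V) (l l' : G), l • u = u ∧ l' • v = v ∧ C.ν l = C.ν l' ∧ C.ν l ≠ 1 ∧
      δ l ≠ δ l' := by
    by_contra hc
    apply hno
    refine h1 m G V δ C.ν X ty ⟨hcls.fg, hcls.surj, hhz m G C.c δ C.ν hcls⟩ hta hex ?_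
    intro u v l l' hl hl' he hne
    by_contra hd
    exact hc ⟨u, v, l, l', hl, hl', he, hne, hd⟩
  obtain ⟨u, v, l, l', hl, hl', he, hne, hd⟩ := hpair
  have hz : C.χ l ^ 2 ≠ C.χ l' ^ 2 := by
    intro hz
    have h2 : δ (l * l'⁻¹) = 1 := by
      rw [hδ, map_mul, map_inv, mul_pow, inv_pow, hz, mul_inv_cancel]
    rw [map_mul, map_inv, mul_inv_eq_one] at h2
    exact hd h2
  have hS : rr (C.χ l) (Multiplicative.toAdd (C.ν l)) ∈ w2_S C w hw htr :=
    ⟨⟨C.T l, C.T_mem l⟩, C.res_T l, hell l u hl⟩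
  have hS' : rr (C.χ l') (Multiplicative.toAdd (C.ν l)) ∈ w2_S C w hw htr := by
    rw [he]
    exact ⟨⟨C.T l', C.T_mem l'⟩, C.res_T l', hell l' v hl'⟩
  obtain ⟨⟨P, hP, hPw⟩, ⟨P', hP', hPw'⟩⟩ :=
    h0 k (w2_S C w hw htr) (C.χ l) (C.χ l') (Multiplicative.toAdd (C.ν l)) hz hS hS'
  have hM : Multiplicative.toAdd (C.ν l) ≠ 0 := by
    intro h
    apply hne
    rw [← ofAdd_toAdd (C.ν l), h]
    rfl
  rcases lt_or_gt_of_ne hM with hlt | hgt
  · refine ⟨-Multiplicative.toAdd (C.ν l), P', P, by omega, w2_ne C P' _ hP', w2_ne C P _ hP,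
      hPw', hPw, hP', ?_⟩
    rw [neg_neg]
    exact hP
  · exact ⟨Multiplicative.toAdd (C.ν l), P, P', hgt, w2_ne C P _ hP, w2_ne C P' _ hP', hPw, hPw',
      hP, hP'⟩

end Pool.Agent.CZE
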