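import Pool.Agent.Lib.MP_305fdd_al.CZ.E.Stm

/-!
# MP_305fdd_al (`C_m * Z`), section E: [CZE w3] the edge stabilisers have trivial classes
-/

set_option autoImplicit false
set_option linter.unusedSectionVars false

namespace Pool.Agent.CZE

open Pool.Agent.CZ Pool.Agent.F2Ch Pool.Agent.F2RF Pool.Agent.F2PF
open Pool.Agent.F2 (PC)
open Pool.Agent.F2D (Irr Disc EdgeElt)
open Pool.Agent.CZD (OntoW)
open Pool.Agent.PSL2Z (TreeAct)

section V

variable {K Γ : Type} [Field K] [AddCommGroup Γ] [LinearOrder Γ] [IsOrderedAddMonoid Γ]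
  {v : K → Γ}

private theorem w3_one (hv : IsV v) : v 1 = 0 := by
  have h := hv.mul 1 1 one_ne_zero one_ne_zero
  rw [mul_one] at h
  exact left_eq_add.1 h

private theorem w3_neg_one (hv : IsV v) : v (-1) = 0 := by
  have h := hv.mul (-1) (-1) (neg_ne_zero.2 one_ne_zero) (neg_ne_zero.2 one_ne_zero)
  rw [neg_mul_neg, mul_one, w3_one hv] at h
  rcases lt_trichotomy (v (-1)) 0 with h1 | h1 | h1
  · exact absurd h.symm (add_neg h1 h1).ne
  · exact h1
  · exact absurd h (add_pos h1 h1).ne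

private theorem w3_neg (hv : IsV v) (x : K) : v (-x) = v x := by
  by_cases hx : x = 0
  · rw [hx, neg_zero]
  · have h := hv.mul (-1) x (neg_ne_zero.2 one_ne_zero) hx
    rw [neg_one_mul, w3_neg_one hv, zero_add] at h
    exact h

private theorem w3_inv (hv : IsV v) {x : K} (hx : x ≠ 0) : v x⁻¹ = -v x := by
  have h := hv.mul x x⁻¹ hx (inv_ne_zero hx)
  rw [mul_inv_cancel₀ hx, w3_one hv] at h
  exact (neg_eq_of_add_eq_zero_right h.symm).symm

private theorem w3_pow (hv : IsV v) {x : K} (hx : x ≠ 0) (n : ℕ) : v (x ^ n) = n • v x := by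
  induction n with
  | zero => rw [pow_zero, zero_smul, w3_one hv]
  | succ n ih => rw [pow_succ, hv.mul _ _ (pow_ne_zero n hx) hx, ih, succ_nsmul]

private theorem w3_zpow (hv : IsV v) {x : K} (hx : x ≠ 0) (n : ℤ) : v (x ^ n) = n • v x := by
  cases n with
  | ofNat n =>
    rw [Int.ofNat_eq_natCast, zpow_natCast, w3_pow hv hx, natCast_zsmul]
  | negSucc n =>
    rw [zpow_negSucc, w3_inv hv (pow_ne_zero _ hx), w3_pow hv hx, negSucc_zsmul]

private theorem w3_add (hv : IsV v) {x y : K} (hx : 0 ≤ v x) (hy : 0 ≤ v y) :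
    0 ≤ v (x + y) := by
  by_cases h : x + y = 0
  · rw [h, hv.zero]
  by_cases hx0 : x = 0
  · rw [hx0, zero_add]; exact hy
  by_cases hy0 : y = 0
  · rw [hy0, add_zero]; exact hx
  exact (le_min hx hy).trans (hv.add x y hx0 hy0 h)

private theorem w3_sub (hv : IsV v) {x y : K} (hx : 0 ≤ v x) (hy : 0 ≤ v y) :
    0 ≤ v (x - y) := by
  rw [sub_eq_add_neg]
  exact w3_add hv hx (by rw [w3_neg hv]; exact hy)

private theorem w3_mul (hv : IsV v) {x y : K} (hx : 0 ≤ v x) (hy : 0 ≤ v y) :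
    0 ≤ v (x * y) := by
  by_cases hx0 : x = 0
  · rw [hx0, zero_mul, hv.zero]
  by_cases hy0 : y = 0
  · rw [hy0, mul_zero, hv.zero]
  rw [hv.mul x y hx0 hy0]
  exact add_nonneg hx hy

private theorem w3_gt_nn (hv : IsV v) {x : K} (h : Gt v 0 x) : 0 ≤ v x := by
  rcases h with rfl | h
  · rw [hv.zero]
  · exact h.le

private theorem w3_gt_neg (hv : IsV v) {x : K} (h : Gt v 0 x) : Gt v 0 (-x) := by
  rcases h with rfl | h
  · exact Or.inl neg_zero
  · exact Or.inr (by rw [w3_neg hv]; exact h)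

private theorem w3_gt_add (hv : IsV v) {x y : K} (hx : Gt v 0 x) (hy : Gt v 0 y) :
    Gt v 0 (x + y) := by
  by_cases h : x + y = 0
  · exact Or.inl h
  by_cases hx0 : x = 0
  · rw [hx0, zero_add]; exact hy
  by_cases hy0 : y = 0
  · rw [hy0, add_zero]; exact hx
  exact Or.inr ((lt_min (hx.resolve_left hx0) (hy.resolve_left hy0)).trans_le
    (hv.add x y hx0 hy0 h))

private theorem w3_gt_mul (hv : IsV v) {x y : K} (hx : 0 ≤ v x) (hy : Gt v 0 y) :
    Gt v 0 (x * y) := by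
  by_cases hx0 : x = 0
  · exact Or.inl (by rw [hx0, zero_mul])
  by_cases hy0 : y = 0
  · exact Or.inl (by rw [hy0, mul_zero])
  right
  rw [hv.mul x y hx0 hy0]
  exact add_pos_of_nonneg_of_pos hx (hy.resolve_left hy0)

private theorem w3_gt_pow (hv : IsV v) {a b : K} (ha : 0 ≤ v a) (hb : 0 ≤ v b)
    (h : Gt v 0 (a - b)) (n : ℕ) : 0 ≤ v (a ^ n) ∧ Gt v 0 (a ^ n - b ^ n) := by
  induction n with
  | zero => exact ⟨by rw [pow_zero, w3_one hv], Or.inl (by rw [pow_zero, pow_zero, sub_self])⟩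
  | succ n ih =>
    refine ⟨by rw [pow_succ]; exact w3_mul hv ih.1 ha, ?_⟩
    have h1 : a ^ (n + 1) - b ^ (n + 1) = a ^ n * (a - b) + b * (a ^ n - b ^ n) := by ring
    rw [h1]
    exact w3_gt_add hv (w3_gt_mul hv ih.1 h) (w3_gt_mul hv hb ih.2)

end V

section

variable {p m : ℕ} [Fact p.Prime] {k K G : Type} [Field k] [CharP k p] [IsAlgClosed k]
  [Field K] [Algebra k K] [Group G] (C : Core p m k K G)

private theorem w3_chi (l : G) : C.χ l ^ p = (C.χ l)⁻¹ := by
  obtain ⟨c, hc⟩ := C.hpm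
  have h : C.χ l ^ (p + 1) = 1 := by rw [hc, pow_mul, C.χ_pow, one_pow]
  rw [pow_succ] at h
  exact eq_inv_of_mul_eq_one_left h

/-- the unit `P` of `B` -/
private theorem w3_res (P P' : C.B) (hPP : P * P' = 1) (M : ℤ)
    (h1 : C.res P = AddMonoidAlgebra.single M 1) (n : ℤ) :
    ∃ Q : C.B, (Q : K) = (P : K) ^ n ∧ C.res Q = AddMonoidAlgebra.single (n * M) 1 := by
  let U : (C.B)ˣ := ⟨P, P', hPP, by rw [mul_comm]; exact hPP⟩
  refine ⟨((U ^ n : (C.B)ˣ) : C.B), ?_, ?_⟩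
  · have h2 : Units.map (C.B.subtype : C.B →* K) (U ^ n) =
        (Units.map (C.B.subtype : C.B →* K) U) ^ n := map_zpow _ _ _
    have h3 := congrArg (fun u : Kˣ => (u : K)) h2
    rw [Units.val_zpow_eq_zpow_val] at h3
    exact h3
  · have h2 : Units.map (C.res : C.B →* Ls k) U =
        Units.map (AddMonoidAlgebra.of k ℤ) (toUnits (Multiplicative.ofAdd M)) := by
      apply Units.ext
      change C.res P = _
      rw [h1]
      rfl
    have h3 : Units.map (C.res : C.B →* Ls k) (U ^ n) =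
        Units.map (AddMonoidAlgebra.of k ℤ) (toUnits (Multiplicative.ofAdd M ^ n)) := by
      rw [map_zpow, h2, map_zpow, map_zpow]
    have h4 := congrArg (fun u : (Ls k)ˣ => (u : Ls k)) h3
    refine h4.trans ?_
    change AddMonoidAlgebra.of k ℤ (Multiplicative.ofAdd M ^ n) = _
    rw [← ofAdd_zsmul, smul_eq_mul]
    rfl

end

/-- [CZE w3] -/
theorem p_w3 (h0 : CZD.S_io) (h1 : S_ed) (h2 : S_zz) (h3 : S_sq) (h4 : S_xt) : S_w3 := by
  intro p m _ k K G _ _ _ _ _ _ C w hw htr hSG hι hI M P P' hM hP0 hP'0 hPw hP'w hPr hP'r l g ψ hE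
  have hconst : ∀ c : k, w (algebraMap k K c) = 0 := htr
  -- (0)
  have hinj : ∀ f : C.B, C.res f = 0 → 0 ≤ w (f : K) → (f : K) = 0 := by
    intro f hf hf0
    by_contra hne
    exact absurd (hI (f : K) ⟨hne, f.2, hf⟩) (not_lt.2 hf0)
  have hPP : P * P' = 1 := by
    have h5 := hinj (P * P' - 1) (by
      rw [map_sub, map_mul, map_one, hPr, hP'r, AddMonoidAlgebra.single_mul_single,
        add_neg_cancel, mul_one]
      exact sub_self _) (by
      rw [AddSubgroupClass.coe_sub, MulMemClass.coe_mul, OneMemClass.coe_one]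
      exact w3_sub hw (w3_mul hw hPw hP'w) (w3_one hw).ge)
    have h6 : P * P' - 1 = 0 := Subtype.ext h5
    exact sub_eq_zero.1 h6
  have hPPK : (P : K) * (P' : K) = 1 := by
    rw [← MulMemClass.coe_mul, hPP, OneMemClass.coe_one]
  have hPinv : (P' : K) = (P : K)⁻¹ := eq_inv_of_mul_eq_one_right hPPK
  have hPw0 : w (P : K) = 0 := by
    have h5 := hw.mul _ _ hP0 hP'0
    rw [hPPK, w3_one hw] at h5
    linarith
  -- (1)
  have hιP : C.ι (P : K) = (P : K)⁻¹ := by
    obtain ⟨h', h5⟩ := h0 p m k K G C (P : K) P.2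
    have h6 := hinj (⟨C.ι (P : K), h'⟩ - P') (by
      rw [map_sub]
      ext n
      rw [AddMonoidAlgebra.coeff_sub, Finsupp.sub_apply, h5 n, hP'r]
      change (C.res P).coeff (-n) ^ p - _ = _
      rw [hPr, AddMonoidAlgebra.coeff_single, AddMonoidAlgebra.coeff_single,
        Finsupp.single_apply, Finsupp.single_apply]
      by_cases hn : M = -n
      · rw [if_pos hn, if_pos (by omega), one_pow, sub_self]
        rfl
      · rw [if_neg hn, if_neg (by omega), zero_pow (Fact.out (p := p.Prime)).ne_zero, sub_self]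
        rfl) (by
      rw [AddSubgroupClass.coe_sub]
      refine w3_sub hw ?_ hP'w
      change 0 ≤ w (C.ι (P : K))
      rw [hι, hPw0])
    rw [AddSubgroupClass.coe_sub] at h6
    rw [← hPinv]
    exact sub_eq_zero.1 h6
  -- (2)
  obtain ⟨he1, he2⟩ := h1 K G C.T w C.ι C.pc hw C.ι_T hι l g ψ hE
  have hψne := hE.ne
  have hψw := hE.val
  have hψz : ∀ j : ℤ, w (ψ ^ j) = 0 := fun j => by rw [w3_zpow hw hψne, hψw, smul_zero]
  have hTj : ∀ j : ℤ, 0 ≤ w (C.T (l ^ j)) := by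
    intro j
    have h5 : C.T (l ^ j) = (C.T (l ^ j) - (ψ ^ j + ψ ^ (-j))) + (ψ ^ j + ψ ^ (-j)) := by ring
    rw [h5]
    exact w3_add hw (w3_gt_nn hw (he2 j)) (w3_add hw (hψz j).ge (hψz (-j)).ge)
  set n : ℤ := Multiplicative.toAdd (C.ν l) with hn
  set ζ : kˣ := C.χ (l ^ M) with hζ
  obtain ⟨Q, hQ1, hQ2⟩ := w3_res C P P' hPP M hPr n
  obtain ⟨Q', hQ'1, hQ'2⟩ := w3_res C P P' hPP M hPr (-n)
  have hQw : w (Q : K) = 0 := by rw [hQ1, w3_zpow hw hP0, hPw0, smul_zero]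
  have hQne : (Q : K) ≠ 0 := by rw [hQ1]; exact zpow_ne_zero _ hP0
  have hQQ : (Q' : K) = (Q : K)⁻¹ := by rw [hQ1, hQ'1, zpow_neg]
  let b : K := algebraMap k K ((ζ⁻¹ : kˣ) : k) * (Q : K)
  have hζne : ∀ u : kˣ, algebraMap k K (u : k) ≠ 0 := fun u =>
    (map_ne_zero_iff _ (algebraMap k K).injective).2 u.ne_zero
  have hbne : b ≠ 0 := mul_ne_zero (hζne _) hQne
  have hbinv : b⁻¹ = algebraMap k K (ζ : k) * (Q' : K) := by
    change (algebraMap k K ((ζ⁻¹ : kˣ) : k) * (Q : K))⁻¹ = _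
    rw [mul_inv, ← hQQ, Units.val_inv_eq_inv_val, map_inv₀, inv_inv]
  have hbw : w b = 0 := by
    rw [hw.mul _ _ (hζne _) hQne, hconst, hQw, add_zero]
  have hbiw : w b⁻¹ = 0 := by rw [w3_inv hw hbne, hbw, neg_zero]
  have hν : Multiplicative.toAdd (C.ν (l ^ M)) = n * M := by
    rw [map_zpow, toAdd_zpow, smul_eq_mul, mul_comm]
  have hbB : C.res (algebraMap k C.B ((ζ⁻¹ : kˣ) : k) * Q) =
      AddMonoidAlgebra.single (n * M) ((ζ⁻¹ : kˣ) : k) := by
    rw [map_mul, hQ2, AlgHom.commutes, ← Algebra.smul_def, AddMonoidAlgebra.smul_single,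
      smul_eq_mul, mul_one]
  have hbB' : C.res (algebraMap k C.B (ζ : k) * Q') =
      AddMonoidAlgebra.single (-(n * M)) (ζ : k) := by
    rw [map_mul, hQ'2, AlgHom.commutes, ← Algebra.smul_def, AddMonoidAlgebra.smul_single,
      smul_eq_mul, mul_one, neg_mul]
  have hTb : C.T (l ^ M) = b + b⁻¹ := by
    have h5 := hinj (⟨C.T (l ^ M), C.T_mem _⟩ - (algebraMap k C.B ((ζ⁻¹ : kˣ) : k) * Q +
        algebraMap k C.B (ζ : k) * Q')) (by
      rw [map_sub, map_add, hbB, hbB', C.res_T, hν]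
      exact sub_self _) (by
      rw [AddSubgroupClass.coe_sub]
      refine w3_sub hw (hTj M) ?_
      change 0 ≤ w (algebraMap k K ((ζ⁻¹ : kˣ) : k) * (Q : K) + algebraMap k K (ζ : k) * (Q' : K))
      rw [← hbinv]
      exact w3_add hw hbw.ge hbiw.ge)
    rw [AddSubgroupClass.coe_sub] at h5
    rw [hbinv]
    exact sub_eq_zero.1 h5
  -- (3)
  have hζp : ∀ u : G, algebraMap k K ((C.χ u : kˣ) : k) ^ p = algebraMap k K (((C.χ u)⁻¹ : kˣ) : k) := by
    intro u
    rw [← map_pow, ← Units.val_pow_eq_pow_val, w3_chi]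
  have hιb : C.ι b = b⁻¹ := by
    rw [hbinv, hQ'1]
    change C.ι (algebraMap k K ((ζ⁻¹ : kˣ) : k) * (Q : K)) = _
    rw [map_mul, C.ι_k, hQ1, map_zpow₀, hιP, inv_zpow', hζ, ← map_inv C.χ,
      map_pow (algebraMap k K), hζp, ← map_inv C.χ, inv_inv]
  have hz := h2 K ℝ w hw (ψ ^ M) b (zpow_ne_zero _ hψne) hbne (hψz M) hbw (by
    have h5 := w3_gt_neg hw (he2 M)
    rw [hTb] at h5
    rw [← zpow_neg]
    convert h5 using 1
    ring)
  obtain ⟨N, hN⟩ := Int.eq_ofNat_of_zero_le hM.le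
  have hψM : Gt w 0 (ψ ^ M - C.ι ψ ^ M) := by
    rw [hN, zpow_natCast, zpow_natCast]
    exact (w3_gt_pow hw hψw.ge (by rw [hι, hψw]) he1 N).2
  have hιGt : ∀ f, Gt w 0 f → Gt w 0 (C.ι f) := by
    rintro f (rfl | hf)
    · exact Or.inl (map_zero C.ι)
    · exact Or.inr (by rw [hι]; exact hf)
  -- `b ^ 2 = 1`
  have hb2 : b ^ 2 = 1 := by
    have h5 : Gt w 0 (b - b⁻¹) := by
      rcases hz with h6 | h6
      · have h7 := hιGt _ h6
        rw [map_sub, map_zpow₀, hιb] at h7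
        have h8 := w3_gt_add hw (w3_gt_add hw (w3_gt_neg hw h6) hψM) h7
        convert h8 using 1
        ring
      · have h7 := hιGt _ h6
        rw [map_sub, map_zpow₀, map_inv₀, hιb, inv_inv] at h7
        have h8 := w3_gt_neg hw (w3_gt_add hw (w3_gt_add hw (w3_gt_neg hw h6) hψM) h7)
        convert h8 using 1
        ring
    have h6 : Gt w 0 (b ^ 2 - 1) := by
      have h7 := w3_gt_mul hw hbw.ge h5
      rw [mul_sub, mul_inv_cancel₀ hbne] at h7
      rwa [pow_two]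
    rcases h6 with h6 | h6
    · exact sub_eq_zero.1 h6
    · exfalso
      by_cases h7 : b ^ 2 - 1 = 0
      · rw [h7, hw.zero] at h6
        exact lt_irrefl _ h6
      · have h8 : b ^ 2 - 1 ∈ C.B :=
          C.B.sub_mem (C.B.pow_mem (C.B.mul_mem (C.B.algebraMap_mem _) Q.2) 2) C.B.one_mem
        obtain ⟨q, hq⟩ := (C.mem_B _).1 h8
        exact absurd (hSG (b ^ 2 - 1) ⟨q, hq⟩ h7) (not_le.2 h6)
  have hn0 : n = 0 := by
    have h5 : (algebraMap k C.B ((ζ⁻¹ : kˣ) : k) * Q) ^ 2 = 1 := Subtype.ext hb2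
    have h6 := congrArg C.res h5
    rw [map_pow, hbB, map_one, pow_two, AddMonoidAlgebra.single_mul_single] at h6
    have h7 := congrArg (fun f : Ls k => f.coeff 0) h6
    rw [AddMonoidAlgebra.one_def] at h7
    simp only [AddMonoidAlgebra.coeff_single, Finsupp.single_apply] at h7
    by_contra hne
    rw [if_neg, if_pos trivial] at h7
    · exact zero_ne_one h7
    · intro h8
      have h9 : n * M = 0 := by omega
      rcases mul_eq_zero.1 h9 with h | h
      · exact hne h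
      · exact hM.ne' h
  have hνl : C.ν l = 1 := by
    rw [← toAdd_eq_zero]
    exact hn0
  -- (4)
  refine ⟨hνl, ?_⟩
  have h5 := hTj 1
  rw [zpow_one] at h5
  have h6 := h4 p m k K G C w hw htr hI l h5 hνl
  refine h3 p m k K G C w hw htr hι ψ l hψne hψw he1 ?_
  have h7 := w3_gt_neg hw (he2 1)
  rw [zpow_one, zpow_one, zpow_neg_one, h6.2] at h7
  convert h7 using 1
  ring

end Pool.Agent.CZE
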