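import Pool.Agent.Lib.MP_305fdd_al.CZ.E.Stm

set_option autoImplicit false

namespace Pool.Agent.CZE

open Pool.Agent.CZ Pool.Agent.F2Ch Pool.Agent.F2RF Pool.Agent.F2PF
open Pool.Agent.F2 (PC)
open Pool.Agent.F2D (Irr Disc EdgeElt)
open Pool.Agent.CZD (OntoW)
open Pool.Agent.PSL2Z (TreeAct)

theorem p_xt : S_xt := by
  intro p m _ k K G _ _ _ _ _ _ C w hw hT hI l hl hν
  refine ⟨hν, ?_⟩
  have hc : algebraMap k K (C.χ l : k) + algebraMap k K ((C.χ l)⁻¹ : kˣ) =
      algebraMap k K ((C.χ l : k) + ((C.χ l)⁻¹ : kˣ)) := by rw [map_add]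
  rw [hc]
  set c : k := (C.χ l : k) + ((C.χ l)⁻¹ : kˣ) with hcd
  by_contra hne
  have hf0 : C.T l - algebraMap k K c ≠ 0 := fun h => hne (sub_eq_zero.1 h)
  have hmem : C.T l - algebraMap k K c ∈ C.B := C.B.sub_mem (C.T_mem l) (C.B.algebraMap_mem c)
  have hres : C.res ⟨C.T l - algebraMap k K c, hmem⟩ = 0 := by
    have h1 : (⟨C.T l - algebraMap k K c, hmem⟩ : C.B) =
        ⟨C.T l, C.T_mem l⟩ - algebraMap k C.B c := by
      apply Subtype.ext
      rfl
    rw [h1, map_sub, C.res_T, AlgHom.commutes, hν]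
    rw [sub_eq_zero]
    show rr (C.χ l) (0 : ℤ) = _
    unfold rr
    rw [neg_zero, ← AddMonoidAlgebra.single_add, add_comm, ← hcd]
    rfl
  have hwf := hI _ ⟨hf0, hmem, hres⟩
  have hge : 0 ≤ w (C.T l - algebraMap k K c) := by
    by_cases h1 : C.T l = 0
    · rw [h1, zero_sub, ← map_neg, hT]
    · by_cases h2 : algebraMap k K c = 0
      · rw [h2, sub_zero]; exact hl
      · have h3 := hw.add (C.T l) (algebraMap k K (-c)) h1 (by rw [map_neg]; exact neg_ne_zero.2 h2)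
          (by rw [map_neg, ← sub_eq_add_neg]; exact hf0)
        rw [hT, map_neg, ← sub_eq_add_neg] at h3
        exact (le_min hl le_rfl).trans h3
  exact absurd hwf (not_lt.2 hge)

end Pool.Agent.CZE
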