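import Pool.Agent.Lib.MP_305fdd_al.CZ.E.Glue
import Pool.Agent.Lib.MP_305fdd_al.CZ.E.P_E2
import Pool.Agent.Lib.MP_305fdd_al.CZ.E.P_E3
import Pool.Agent.Lib.MP_305fdd_al.CZ.E.P_E4
import Pool.Agent.Lib.MP_305fdd_al.CZ.E.P_ab
import Pool.Agent.Lib.MP_305fdd_al.CZ.E.P_ed
import Pool.Agent.Lib.MP_305fdd_al.CZ.E.P_ell
import Pool.Agent.Lib.MP_305fdd_al.CZ.E.P_fl
import Pool.Agent.Lib.MP_305fdd_al.CZ.E.P_fpl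
import Pool.Agent.Lib.MP_305fdd_al.CZ.E.P_inf
import Pool.Agent.Lib.MP_305fdd_al.CZ.E.P_neg
import Pool.Agent.Lib.MP_305fdd_al.CZ.E.P_per
import Pool.Agent.Lib.MP_305fdd_al.CZ.E.P_sn
import Pool.Agent.Lib.MP_305fdd_al.CZ.E.P_sq
import Pool.Agent.Lib.MP_305fdd_al.CZ.E.P_w2
import Pool.Agent.Lib.MP_305fdd_al.CZ.E.P_w3
import Pool.Agent.Lib.MP_305fdd_al.CZ.E.P_xt
import Pool.Agent.Lib.MP_305fdd_al.CZ.E.P_zz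
import Pool.Agent.Lib.MP_305fdd_al.CZ.T.P_fp
import Pool.Agent.Lib.MP_305fdd_al.CZ.T.P_sub
import Pool.Agent.Lib.MP_305fdd_al.CZ.T.P_tt
import Pool.Agent.Lib.MP_305fdd_al.CZ.W.Main
import Pool.Agent.Lib.MP_305fdd_al.CZ.LX.Main

/-!
# MP_305fdd_al (`C_m * Z`), section E: the contradictions E2, E3, E4
-/

set_option autoImplicit false

namespace Pool.Agent.CZE

open Pool.Agent.CZ

theorem m_tt : CZT.S_tt :=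
  CZT.p_tt (CZT.p_fp F2D.p_fx F2D.m_ma) (CZT.p_sub F2D.p_t1 F2D.p_t2) F2D.m_co F2D.m_mi F2D.m_le
    F2D.m_se F2D.p_mo

theorem m_ell : S_ell := p_ell CZW.i_pos CZW.i_rk
theorem m_sq : S_sq := p_sq p_zz
theorem m_w2 : S_w2 := p_w2 p_sn CZD.m_TL CZ.m_hz
theorem m_w3 : S_w3 := p_w3 CZD.m_io p_ed p_zz m_sq p_xt

theorem m_E2 : I_E2 := p_E2 p_inf m_ell p_fl p_ed m_sq g_cls CZD.m_TT CZD.m_CL CZD.m_ow (F2D.p_l3 F2D.p_l2)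

theorem m_E3 : I_E3 := p_E3 CZW.i_rfw CZLX.LX p_inf m_ell p_fl p_ed p_zz p_fpl CZD.m_gd CZD.m_TT
  CZD.m_CL CZD.m_ow

theorem m_E4 : I_E4 := p_E4 p_inf p_neg p_xt m_w2 m_w3 p_ab g_cls m_tt g_dec CZD.m_EX CZD.m_tw
  CZD.m_ow

end Pool.Agent.CZE
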