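import Pool.Agent.Lib.MP_305fdd_al.CZ.E.Stm

/-!
# MP_305fdd_al (`C_m * Z`), section E, piece [CZE fpl]
-/

set_option autoImplicit false

namespace Pool.Agent.CZE

open Pool.Agent.CZ Pool.Agent.F2Ch Pool.Agent.F2RF Pool.Agent.F2PF
open Pool.Agent.F2 (PC)
open Pool.Agent.F2D (Irr Disc EdgeElt)
open Pool.Agent.CZD (OntoW)
open Pool.Agent.PSL2Z (TreeAct)

section
variable {κ : Type} [Field κ] {c : κ → ℤ}

private theorem fpl_one (hc : IsV c) : c 1 = 0 := by
  have h := hc.mul 1 1 one_ne_zero one_ne_zero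
  rw [mul_one] at h
  omega

private theorem fpl_inv (hc : IsV c) {y : κ} (hy : y ≠ 0) : c y⁻¹ = - c y := by
  have h := hc.mul y y⁻¹ hy (inv_ne_zero hy)
  rw [mul_inv_cancel₀ hy, fpl_one hc] at h
  omega

private theorem fpl_pow (hc : IsV c) {y : κ} (hy : y ≠ 0) (n : ℕ) : c (y ^ n) = n * c y := by
  induction n with
  | zero => rw [pow_zero, fpl_one hc]; simp
  | succ n ih =>
    rw [pow_succ, hc.mul _ _ (pow_ne_zero n hy) hy, ih]
    push_cast
    ring

private theorem fpl_zpow (hc : IsV c) {y : κ} (hy : y ≠ 0) (n : ℤ) : c (y ^ n) = n * c y := by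
  cases n with
  | ofNat n =>
    rw [Int.ofNat_eq_natCast, zpow_natCast]
    exact fpl_pow hc hy n
  | negSucc n =>
    rw [zpow_negSucc, fpl_inv hc (pow_ne_zero _ hy), fpl_pow hc hy, Int.negSucc_eq]
    push_cast
    ring

end

private theorem fpl_V {K : Type} {w : K → ℝ} {V : K → ℝ ×ₗ ℝ}
    (h1 : ∀ f, (ofLex (V f)).1 = w f) {f : K} (hf : w f = 0) : 0 < V f ↔ 0 < c2 V f := by
  have h0 : (ofLex (0 : ℝ ×ₗ ℝ)).1 = 0 := rfl
  have h0' : (ofLex (0 : ℝ ×ₗ ℝ)).2 = 0 := rfl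
  rw [Prod.Lex.lt_iff, h1 f, hf, h0, h0']
  unfold c2
  simp

theorem p_fpl : S_fpl := by
  intro k K κ _ _ _ _ _ w x ac hw hac V V' c c' γ γ' hV hV' hγ hγ' hc hc' h2 h2' he
  -- the positive elements
  have hpos : ∀ y : κ, y ≠ 0 → (0 < c y ↔ 0 < c' y) := by
    intro y hy
    obtain ⟨f, hf, hwf, rfl⟩ := hac.surj y hy
    have e1 : 0 < c (ac f) ↔ 0 < V f := by
      rw [fpl_V hV hwf, h2 f hf hwf, mul_pos_iff_of_pos_right hγ]
      exact Int.cast_pos.symm
    have e2 : 0 < c' (ac f) ↔ 0 < V' f := by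
      rw [fpl_V hV' hwf, h2' f hf hwf, mul_pos_iff_of_pos_right hγ']
      exact Int.cast_pos.symm
    rw [e1, e2]
    exact he f
  have hneg : ∀ y : κ, y ≠ 0 → (c y < 0 ↔ c' y < 0) := by
    intro y hy
    have h := hpos y⁻¹ (inv_ne_zero hy)
    rw [fpl_inv hc.isv hy, fpl_inv hc'.isv hy] at h
    constructor
    · intro h3
      have := h.1 (by omega)
      omega
    · intro h3
      have := h.2 (by omega)
      omega
  have hzero : ∀ y : κ, y ≠ 0 → c y = 0 → c' y = 0 := by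
    intro y hy h0
    have h3 := hpos y hy
    have h4 := hneg y hy
    by_contra hne
    rcases lt_or_gt_of_ne hne with h5 | h5
    · have := h4.2 h5
      omega
    · have := h3.2 h5
      omega
  obtain ⟨π, hπ, hπ1⟩ := hc.unif
  have hmul : ∀ y : κ, y ≠ 0 → c' y = c y * c' π := by
    intro y hy
    have hz : π ^ (- c y) ≠ 0 := zpow_ne_zero _ hπ
    have h0 : c (y * π ^ (- c y)) = 0 := by
      rw [hc.isv.mul y _ hy hz, fpl_zpow hc.isv hπ, hπ1]
      ring
    have h1 := hzero _ (mul_ne_zero hy hz) h0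
    rw [hc'.isv.mul y _ hy hz, fpl_zpow hc'.isv hπ] at h1
    linarith
  have hd : c' π = 1 := by
    obtain ⟨π', hπ', hπ1'⟩ := hc'.unif
    have h1 := hmul π' hπ'
    rw [hπ1'] at h1
    have h3 : 0 < c' π := (hpos π hπ).1 (by rw [hπ1]; norm_num)
    have h4 : c' π ∣ 1 := ⟨c π', by rw [mul_comm]; exact h1⟩
    exact Int.eq_one_of_dvd_one h3.le h4
  funext y
  by_cases hy : y = 0
  · rw [hy, hc.isv.zero, hc'.isv.zero]
  · rw [hmul y hy, hd, mul_one]

end Pool.Agent.CZE
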