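import Pool.Agent.Lib.MP_305fdd_al.CZ.E.Stm

/-!
# MP_305fdd_al (C_m * Z), section E: piece [CZE zz]
-/

set_option autoImplicit false

namespace Pool.Agent.CZE

open Pool.Agent.CZ Pool.Agent.F2Ch Pool.Agent.F2RF Pool.Agent.F2PF
open Pool.Agent.F2 (PC)
open Pool.Agent.F2D (Irr Disc EdgeElt)
open Pool.Agent.CZD (OntoW)
open Pool.Agent.PSL2Z (TreeAct)


theorem p_zz : S_zz := by
  intro K Γ _ _ _ _ v hv a b ha hb va _ h
  by_cases h1 : a - b = 0
  · exact Or.inl (Or.inl h1)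
  by_cases h2 : a - b⁻¹ = 0
  · exact Or.inr (Or.inl h2)
  have key : (a - b) * (a - b⁻¹) = a * (a + a⁻¹ - (b + b⁻¹)) := by
    field_simp
    ring
  have hne : a + a⁻¹ - (b + b⁻¹) ≠ 0 := by
    intro h0
    rw [h0, mul_zero] at key
    exact (mul_ne_zero h1 h2) key
  have hpos : 0 < v (a + a⁻¹ - (b + b⁻¹)) := by
    rcases h with h | h
    · exact absurd h hne
    · exact h
  have hsum : v (a - b) + v (a - b⁻¹) = v (a + a⁻¹ - (b + b⁻¹)) := by
    rw [← hv.mul _ _ h1 h2, key, hv.mul _ _ ha hne, va, zero_add]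
  by_contra hcon
  have c1 : v (a - b) ≤ 0 := by
    by_contra hc
    exact hcon (Or.inl (Or.inr (not_le.1 hc)))
  have c2 : v (a - b⁻¹) ≤ 0 := by
    by_contra hc
    exact hcon (Or.inr (Or.inr (not_le.1 hc)))
  have c3 := add_nonpos c1 c2
  rw [hsum] at c3
  exact absurd hpos (not_lt.2 c3)

end Pool.Agent.CZE
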