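import Pool.Agent.Lib.MP_305fdd_al.CZ.E.Ifc
import Pool.Agent.Lib.MP_305fdd_al.CZ.D.Stm

/-!
# MP_305fdd_al (`C_m * Z`), section E: the contradictions E2, E3, E4. Statements with proofs [CZE ..]

Every `def S_xx : Prop` (namespace `Pool.Agent.CZE`) is one independent piece; its docstring contains the complete
proof.  The other statements, those of `CZ/D/Stm.lean` (`CZ.S_tt`, ..) and `CZ/D/StmH.lean` (`CZD.S_CL`, ..), the interfaces `CZ.I_pos`, `CZ.I_rk`, `CZ.I_rfw`, `CZ.I_LX` of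
`CZ/E/Ifc.lean` and the proved statements `F2D.S_l1`, `F2D.S_l3` may be taken as hypotheses.

Conventions: `z` for `C.χ l`, constants of `k` are written without `algebraMap`; `Gt w 0 f`: `f = 0` or `0 < w f` (closed under sums, and under products with elements of
value `≥ 0`); `IsV`: `w 1 = 0`, `w (-f) = w f`.  `C.T l ∈ B`, `C.res (T l) = rr z n`, `n = ν l`.  `z ^ p = z⁻¹` for `z = C.χ l`: `z ^ (2 m) = 1` and `2 m ∣ p + 1`.
-/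

set_option autoImplicit false

namespace Pool.Agent.CZE

open Pool.Agent.CZ Pool.Agent.F2Ch Pool.Agent.F2RF Pool.Agent.F2PF
open Pool.Agent.F2 (PC)
open Pool.Agent.F2D (Irr Disc EdgeElt)
open Pool.Agent.CZD (OntoW)
open Pool.Agent.PSL2Z (TreeAct)

/-- [CZE per] (about 50 lines) Every element is fixed by a power of `ι`.
Proof. The set of the `f ∈ K` with `ι^[N] f = f` for some `N > 0` is a subfield (for `f, g` with `N, N'` use `N * N'`).  It contains `k` (`ι_k`: `ι^[N] c = c ^ p ^ N`, `C.alg`) and the `T g`, so it contains `B` (`adj`) and the quotients of elements of `B`, so `K` (`fracgen`, `mem_B`). -/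
def S_per : Prop :=
  ∀ (p m : ℕ) [Fact p.Prime] (k K G : Type) [Field k] [CharP k p] [IsAlgClosed k] [Field K]
    [Algebra k K] [Group G] (C : Core p m k K G), ∀ f : K, ∃ N, 0 < N ∧ C.ι^[N] f = f

/-- [CZE inf] (about 50 lines) A valuation at infinity has `w (T g) < 0` for some `g`.
Proof. Otherwise `{f | f = 0 ∨ 0 ≤ w f}` is a subalgebra which contains all `T g`, so it contains `B` (`adj`), and `Br k C.t` (`mem_B`): against `AtInf`. -/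
def S_inf : Prop :=
  ∀ (p m : ℕ) [Fact p.Prime] (k K G : Type) [Field k] [CharP k p] [IsAlgClosed k] [Field K]
    [Algebra k K] [Group G] (C : Core p m k K G) (w : K → ℝ), IsV w → Triv k w →
    AtInf (Br k C.t) w → ∃ g0, w (C.T g0) < 0

/-- [CZE ell] (about 110 lines) Uses I_pos, I_rk. Compatible valuations of rational rank two.
Proof. Let `τ f = cs (res f)`.  (i) Let `f ∈ I`, `V f = 0`.  I_rk: `a ≠ 0`, `Gt V 0 (f - a)`; `τ (f - a) = - a ≠ 0` contradicts I_pos (and `f = a` is impossible since `res f = 0`).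
(ii) Let `n = ν l`.  If `n ≠ 0` then `τ (T l) = 0` and `τ (T l ^ 2) = 2 ≠ 0` (`rr z n ^ 2 = z⁻² s^(2n) + 2 + z² s^(-2n)`), so `T l ≠ 0`, `V (T l ^ 2) = 2 V (T l)` is not positive, so `V (T l) = 0`; by I_rk `Gt V 0 (T l - a)` with `a ≠ 0`, and `τ (T l - a) = - a ≠ 0` contradicts I_pos (`T l ≠ a` because of
`res`).  So `n = 0`, `τ (T l) = z + z⁻¹`.  If `T l = 0` or `V (T l) > 0` then `z + z⁻¹ = 0` (`res`, I_pos) and the claim holds.  If `V (T l) = 0`, `T l ≠ 0`: `Gt V 0 (T l - a)`, so `T l = a` or `τ (T l - a) = 0`: `a = z + z⁻¹` in both cases. -/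
def S_ell : Prop :=
  ∀ (p m : ℕ) [Fact p.Prime] (k K G : Type) [Field k] [CharP k p] [IsAlgClosed k] [Field K]
    [Algebra k K] [Group G] (C : Core p m k K G) (Γ : Type) [AddCommGroup Γ] [LinearOrder Γ]
    [IsOrderedAddMonoid Γ] (V : K → Γ), InZ k p C.φ V →
    (∃ x1 x2 : K, x1 ≠ 0 ∧ x2 ≠ 0 ∧ ∀ a b : ℤ, a • V x1 + b • V x2 = 0 → a = 0 ∧ b = 0) →
    (∀ f ∈ C.I, V f ≠ 0) ∧
    ∀ l, 0 ≤ V (C.T l) → C.ν l = 1 ∧
      Gt V 0 (C.T l - (algebraMap k K (C.χ l : k) + algebraMap k K ((C.χ l)⁻¹ : kˣ)))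

/-- [CZE fl] (about 40 lines) A flag has rational rank two.
Proof. `x1` with `w x1 ≠ 0`, `x2` from `Flag.nt`: `w x2 = 0`, `c2 V x2 ≠ 0`.  If `a • V x1 + b • V x2 = 0` then the first component `a * w x1 = 0`, so `a = 0`, and `b * c2 V x2 = 0`.  The other statements: the order of `ℝ ×ₗ ℝ` is lexicographic. -/
def S_fl : Prop :=
  ∀ (p : ℕ) (k K : Type) [Field k] [Field K] [Algebra k K] (φ : K → K) (w : K → ℝ)
    (V : K → ℝ ×ₗ ℝ), Flag k p φ w V → (∃ f, w f ≠ 0) →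
    (∃ x1 x2 : K, x1 ≠ 0 ∧ x2 ≠ 0 ∧ ∀ a b : ℤ, a • V x1 + b • V x2 = 0 → a = 0 ∧ b = 0) ∧
    (∀ f, 0 < w f → 0 < V f) ∧ (∀ f, 0 ≤ V f → 0 ≤ w f) ∧
    ∀ f, w f = 0 → (0 ≤ V f ↔ 0 ≤ c2 V f) ∧ (0 < V f ↔ 0 < c2 V f)

/-- [CZE ed] (about 70 lines) The residual eigenvalue of an edge element.
Proof. `PC.rel` for `g`, `l ^ j`: `T (g * l ^ j) + T (g * l ^ (-j)) = T g * T (l ^ j)`; by `EdgeElt.lead` for `j` and `-j` the element `(ψ ^ j + ψ ^ (-j) - T (l ^ j)) * T g` is `0` or has value `> w (T g)`: (ii).  (i) `r = T (g * l) - ψ * T g` is `0` or of value `> w (T g)`; so is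
`ι r = T (g * l) - ι ψ * T g`, so the difference `(ψ - ι ψ) * T g` too.  (`T g ≠ 0` since `w (T g) < 0`.) -/
def S_ed : Prop :=
  ∀ (K G : Type) [Field K] [Group G] (T : G → K) (w : K → ℝ) (ι : K ≃+* K), PC T → IsV w →
    (∀ g, ι (T g) = T g) → (∀ f, w (ι f) = w f) → ∀ (l g : G) (ψ : K), EdgeElt w T l g ψ →
    Gt w 0 (ψ - ι ψ) ∧ ∀ j : ℤ, Gt w 0 (T (l ^ j) - (ψ ^ j + ψ ^ (-j)))

/-- [CZE zz] (about 40 lines) The two roots.
Proof. `(a - b) * (a - b⁻¹) = a * (a + a⁻¹ - (b + b⁻¹))` has `Gt v 0`; `a - b` and `a - b⁻¹` are `0` or of value `≥ 0`. -/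
def S_zz : Prop :=
  ∀ (K Γ : Type) [Field K] [AddCommGroup Γ] [LinearOrder Γ] [IsOrderedAddMonoid Γ] (v : K → Γ),
    IsV v → ∀ a b : K, a ≠ 0 → b ≠ 0 → v a = 0 → v b = 0 → Gt v 0 (a + a⁻¹ - (b + b⁻¹)) →
    Gt v 0 (a - b) ∨ Gt v 0 (a - b⁻¹)

/-- [CZE sq] (about 60 lines) Uses zz. An `ι`-fixed eigenvalue which is a root of unity `z^(±1)`.
Proof. zz (`a = ψ`, `b = z`): `Gt w 0 (ψ - z1)` with `z1 = z` or `z1 = z⁻¹` in `k`.  Apply `ι`: `Gt w 0 (ι ψ - z1 ^ p)` and `z1 ^ p = z1⁻¹`.  So `Gt w 0 (z1 - z1⁻¹)`, a constant: it is `0` (`Triv`), `z1 ^ 2 = 1`. -/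
def S_sq : Prop :=
  ∀ (p m : ℕ) [Fact p.Prime] (k K G : Type) [Field k] [CharP k p] [IsAlgClosed k] [Field K]
    [Algebra k K] [Group G] (C : Core p m k K G) (w : K → ℝ), IsV w → Triv k w →
    (∀ f, w (C.ι f) = w f) → ∀ (ψ : K) (l : G), ψ ≠ 0 → w ψ = 0 → Gt w 0 (ψ - C.ι ψ) →
    Gt w 0 (ψ + ψ⁻¹ - (algebraMap k K (C.χ l : k) + algebraMap k K ((C.χ l)⁻¹ : kˣ))) →
    C.χ l ^ 2 = 1

/-- [CZE E2] (about 150 lines) Uses I_pos, I_rk, inf, ell, fl, ed, sq, CZD.S_gd, CZD.S_TT, CZD.S_CL, CZD.S_ow, F2D.S_l3.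
Proof. gd: `δ`.  inf: `w (T g0) < 0`.  TT for `w` (`Dv` is `Disc`): a tree.  (a) Let `l` fix a vertex: `0 ≤ w (T l)`.  Then `0 ≤ V0 (T l)`: clear if `T l = 0` or `w (T l) > 0`; if `w (T l) = 0` use `BT`: `μ * w f - c2 V0 f ≤ 0` for `f ∈ B - 0`.  By ell (for `V0`, fl): `ν l = 1`.
(b) Let `l` fix both ends of an edge, `EdgeElt w T l g ψ`; `w (T l) ≥ 0` and `ν l = 1`.  F2D.S_l3 for `Vp` (`α = μ`, `β = 1` from `PT`): `Vp ψ = 0`.  By ed (`j = 1`) `T l = ψ + ψ⁻¹ + r`, `Gt w 0 r`, so `Gt Vp 0 r` and `0 ≤ Vp (T l)`.  Let `f = T l - (z + z⁻¹) ∈ B`; `res f = 0` as `ν l = 1`; `Ge Vp 0 f`.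
If `f ≠ 0` and `w f = 0`: `PT` gives `c2 Vp f ≤ 0`, so `Vp f ≤ 0`, so `Vp f = 0`, against ell (i).  So `Gt w 0 f` (`w f ≥ 0` by fl), and `Gt w 0 (ψ + ψ⁻¹ - (z + z⁻¹))`.  ed, sq: `z ^ 2 = 1`, `δ l = 1`.  (c) CL and ow: `Onto`, a contradiction. -/
def S_E2 : Prop := I_E2

/-- [CZE neg] (about 30 lines)
Proof. `PC.rel` for `c`: `T (c h) + T (c h⁻¹) = T c T h = - 2 T h`, and, as `T x⁻¹ = T x` (`rel` with `g = 1`) and `c⁻¹ = c`, `T (c h⁻¹) = T (h c⁻¹) = T (h c) = T (c h)`.  So `2 T (c h) = - 2 T h`, and `2 ≠ 0`. -/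
def S_neg : Prop :=
  ∀ (p m : ℕ) [Fact p.Prime] (k K G : Type) [Field k] [CharP k p] [IsAlgClosed k] [Field K]
    [Algebra k K] [Group G] (C : Core p m k K G), ∀ h, C.T (C.c * h) = - C.T h

/-- [CZE fpl] (about 90 lines) Flags with the same positive elements give the same place.
Proof. Let `f` be a nonzero element with `w f = 0`; every `y : κ`, `y ≠ 0`, is `ac f` for such an `f` (`IsAC.surj`).  `0 < c y` iff `0 < c2 V f` iff `0 < V f` (`w f = 0`, lexicographic order), the same for `c'`, `V'`.  So `0 < c y ↔ 0 < c' y` for all `y ≠ 0`, and (apply it to `y⁻¹`) the same for `< 0` and `= 0`.  Let `c π = 1` (`Plc.unif`); `c' π = d > 0`; for `y ≠ 0`: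
`c (y * π ^ (- c y)) = 0`, so `c' y = c y * d`; `c'` takes the value `1`, so `d = 1`.  `c 0 = c' 0 = 0`. -/
def S_fpl : Prop :=
  ∀ (k K κ : Type) [Field k] [Field K] [Algebra k K] [Field κ] [Algebra k κ] (w : K → ℝ)
    (x : Fin 1 → K) (ac : K → κ), IsV w → IsAC k w x ac → ∀ (V V' : K → ℝ ×ₗ ℝ)
    (c c' : κ → ℤ) (γ γ' : ℝ), (∀ f, (ofLex (V f)).1 = w f) → (∀ f, (ofLex (V' f)).1 = w f) →
    0 < γ → 0 < γ' → Plc k c → Plc k c' →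
    (∀ f, f ≠ 0 → w f = 0 → c2 V f = (c (ac f) : ℝ) * γ) →
    (∀ f, f ≠ 0 → w f = 0 → c2 V' f = (c' (ac f) : ℝ) * γ') → Eqv V V' → c = c'

/-- [CZE E3] (about 220 lines) Uses I_pos, I_rk, I_rfw, I_LX, inf, ell, fl, ed, zz, fpl, CZD.S_gd, CZD.S_TT, CZD.S_CL, CZD.S_ow.
Proof. gd, inf, TT for `w`: `δ` and a tree.  (a) Let `l` fix a vertex: `0 ≤ w (T l)`, so `0 ≤ V (T l)` (if `w (T l) = 0` and `T l ≠ 0` by hypothesis), so `ν l = 1` and `Gt V 0 (T l - (z + z⁻¹))` (ell).  (b) If `δ = 1` on all edge stabilisers then CL and ow give `Onto`.  So there are an edge, `l` fixing its ends, `g`, `ψ` with `EdgeElt w T l g ψ`, `δ l ≠ 1`, so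
`z ^ 2 ≠ 1`, `z = χ l`.  (c) ed: `T l = ψ + ψ⁻¹ + r`, `Gt w 0 r`, so `Gt V 0 (ψ + ψ⁻¹ - (z + z⁻¹))`.  `V ψ = 0`: if `V ψ > 0` then `V (ψ + ψ⁻¹ - z - z⁻¹) = - V ψ < 0`, and symmetrically for `V ψ < 0`.  zz for `V`: `Gt V 0 (ψ - z1)`, `z1 ∈ {z, z⁻¹}`, `z1 ^ 2 ≠ 1`.
(d) Let `V' = V ∘ ι`: it is a flag at `w` (`InZ`: `ι (φ f) = φ (ι f)`, `ι` maps `k` to `k`; first component `w (ι f) = w f`; `nt` for `ι⁻¹ f`).  `Gt V' 0 (ψ - z1⁻¹)`: `ι (ψ - z1⁻¹) = ι ψ - z1 = (ι ψ - ψ) + (ψ - z1)` (`z1 ^ p = z1⁻¹`), and `Gt w 0 (ψ - ι ψ)` (ed).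
(e) I_rfw: `κ, ac, φb`; let `c1, c2'` be the places of `V, V'`.  Every compatible place `c` of `κ` comes from a flag `V''`, which is `Eqv` to `V` or to `V'`: by fpl `c = c1` or `c = c2'`.  Let `Ψ = ac ψ`.  `Gt c1 0 (Ψ - z1)`: if `ψ - z1` has `w > 0` or is `0` then `Ψ = z1` (`IsAC.add` at level `0`); otherwise
`w (ψ - z1) = 0`, `Ψ - z1 = ac (ψ - z1)` and `c2 V (ψ - z1) > 0`.  In the same way `Gt c2' 0 (Ψ - z1⁻¹)`.  (f) `h = T l - (z + z⁻¹) ∈ B`, `res h = 0` (`ν l = 1`), so `φ^[N] h = 0` for large `N` (`C.tau`, `cs 0 = 0`).  `ψ + ψ⁻¹ - z1 - z1⁻¹ = h - r`, so its `lc` at level `0` is mapped by `φb^[N]` to `lc w ac 0 (φ^[N] (h - r)) = lc w ac 0 (- φ^[N] r) = 0`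
(`Gt w 0 (φ^[N] r)` by compatibility).  And this `lc` is `Ψ + Ψ⁻¹ - z1 - z1⁻¹`.  I_LX: contradiction. -/
def S_E3 : Prop := I_E3

/-- [CZE xt] (about 30 lines) If `w < 0` on `I` then elliptic elements with `ν = 1` are exact.
Proof. `f = T l - (z + z⁻¹) ∈ B`, `res f = 0`; `f = 0` or `w f ≥ 0` (`w (T l) ≥ 0`, constants); if `f ≠ 0` then `f ∈ C.I`, `w f < 0`. -/
def S_xt : Prop :=
  ∀ (p m : ℕ) [Fact p.Prime] (k K G : Type) [Field k] [CharP k p] [IsAlgClosed k] [Field K]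
    [Algebra k K] [Group G] (C : Core p m k K G) (w : K → ℝ), IsV w → Triv k w →
    (∀ f ∈ C.I, w f < 0) → ∀ l, 0 ≤ w (C.T l) → C.ν l = 1 → C.Ex l

/-- [CZE sn] (about 50 lines) Linear algebra: two independent symmetric elements.
Proof. `rr z n = z⁻¹ X + z X⁻¹` with `X = single n 1`, `X⁻¹ = single (-n) 1`.  `z2 rr z1 n - z1 rr z2 n = (z2 z1⁻¹ - z1 z2⁻¹) X` and `z2 z1⁻¹ ≠ z1 z2⁻¹` as `z1 ^ 2 ≠ z2 ^ 2`; the same for `X⁻¹`. -/
def S_sn : Prop :=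
  ∀ (k : Type) [Field k] (S : Submodule k (Ls k)) (z1 z2 : kˣ) (n : ℤ), z1 ^ 2 ≠ z2 ^ 2 →
    rr z1 n ∈ S → rr z2 n ∈ S →
    AddMonoidAlgebra.single n (1 : k) ∈ S ∧ AddMonoidAlgebra.single (-n) (1 : k) ∈ S

/-- [CZE w2] (about 90 lines) Uses sn, CZ.S_hz, CZD.S_TL.
Proof. `GD m G δ ν` from `Cls` and hz.  If for all `l, l'` which fix vertices and have `ν l = ν l' ≠ 1` also `δ l = δ l'` then TL gives `OntoW`.  So there are such `l, l'` with `δ l ≠ δ l'`; let `M = toAdd (ν l) ≠ 0`.  `w (T l), w (T l') ≥ 0`.  `χ l ^ 2 ≠ χ l' ^ 2` (`δ (l l'⁻¹) ≠ 1`).  Let `S` be the `k`-submodule of `Ls k` of the `res f`, `f ∈ B`,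
`0 ≤ w f` (`w 0 = 0`).  `rr (χ l) M`, `rr (χ l') M ∈ S`, so by sn `single (±M) 1 ∈ S`: `P, P'`; they are nonzero.  Exchange them if `M < 0`. -/
def S_w2 : Prop :=
  ∀ (p m : ℕ) [Fact p.Prime] (k K G : Type) [Field k] [CharP k p] [IsAlgClosed k] [Field K]
    [Algebra k K] [Group G] (C : Core p m k K G) (δ : G →* Multiplicative (ZMod m)),
    Cls m G C.c δ C.ν → (∀ g, δ g = 1 ↔ C.χ g ^ 2 = 1) → ¬ OntoW m G → ∀ w : K → ℝ, IsV w →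
    Triv k w → ∀ (V : Type) [MulAction G V] (X : SimpleGraph V) (ty : V → Bool),
    TreeAct G V X ty → (∀ (l : G) (a : V), l • a = a → 0 ≤ w (C.T l)) →
    (∃ (v : V) (l : G), l • v = v ∧ C.ν l ≠ 1) →
    ∃ (M : ℤ) (P P' : C.B), 0 < M ∧ (P : K) ≠ 0 ∧ (P' : K) ≠ 0 ∧ 0 ≤ w P ∧ 0 ≤ w P' ∧
      C.res P = AddMonoidAlgebra.single M 1 ∧ C.res P' = AddMonoidAlgebra.single (-M) 1

/-- [CZE w3] (about 200 lines) Uses CZD.S_io, ed, zz, sq, xt. The edge stabilisers have trivial classes.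
Proof. (0) INJ: `f ∈ B`, `res f = 0`, `f = 0 ∨ 0 ≤ w f` imply `f = 0` (`w < 0` on `I`).  So `P * P' = 1` (`res (P P' - 1) = 0`), `w P = w P' = 0`.  (1) `ι P = P'`: `ι P ∈ B`, and `res (ι P) = single (-M) 1` (io), `w (ι P) = w P = 0`: INJ for `ι P - P'`.  (2) Let `n = toAdd (ν l)`, `ζ = χ (l ^ M) = z ^ M`, `b = ζ⁻¹ P ^ n` (power in `K`, `n : ℤ`; `P ^ (-1) = P'`, so
`b, b⁻¹ ∈ B`), `w b = 0`.  ed: `Gt w 0 (T (l ^ M) - (ψ ^ M + ψ ^ (-M)))`, so `w (T (l ^ M)) ≥ 0` or it is `0`.  `res (T (l ^ M)) = ζ⁻¹ s ^ (n M) + ζ s ^ (- n M) = res (b + b⁻¹)`: INJ: `T (l ^ M) = b + b⁻¹`.  (3) zz (`a = ψ ^ M`): `Gt w 0 (ψ ^ M - b1)`, `b1 = b` or `b⁻¹`.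
`ι b1 = b1⁻¹` (`ι ζ = ζ ^ p = ζ⁻¹`, `ι P = P⁻¹`).  `Gt w 0 (ψ - ι ψ)` (ed) gives `Gt w 0 (ψ ^ M - (ι ψ) ^ M)` (`w ψ = w (ι ψ) = 0`); so `Gt w 0 (b1 - b1⁻¹)`, `Gt w 0 (b1 ^ 2 - 1)`, and `b1 ^ 2 - 1 ∈ B`, so (`SG`) it is `0`.  `res`: `ζ^(∓2) s ^ (± 2 n M) = 1`, so `n = 0`, `ν l = 1`.  (4) xt: `Ex l`, `T l = z + z⁻¹`; ed with
`j = 1` and sq: `z ^ 2 = 1`. -/
def S_w3 : Prop :=
  ∀ (p m : ℕ) [Fact p.Prime] (k K G : Type) [Field k] [CharP k p] [IsAlgClosed k] [Field K]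
    [Algebra k K] [Group G] (C : Core p m k K G), ∀ w : K → ℝ, IsV w → Triv k w →
    SG (Br k C.t) w → (∀ f, w (C.ι f) = w f) → (∀ f ∈ C.I, w f < 0) →
    ∀ (M : ℤ) (P P' : C.B), 0 < M → (P : K) ≠ 0 → (P' : K) ≠ 0 → 0 ≤ w P → 0 ≤ w P' →
    C.res P = AddMonoidAlgebra.single M 1 → C.res P' = AddMonoidAlgebra.single (-M) 1 →
    ∀ (l g : G) (ψ : K), EdgeElt w C.T l g ψ → C.ν l = 1 ∧ C.χ l ^ 2 = 1

/-- [CZE ab] (about 100 lines) A group which is abelian modulo the kernel of `T`.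
Proof. `N = {g | ∀ h, T (g * h) = T h}` is a normal subgroup (`T (x g x⁻¹ h) = T (g x⁻¹ h x) = T (x⁻¹ h x) = T h` by `PC.comm`).  If `g` satisfies `T (g h) = - T h` for all `h` then `[g, x] = g x g⁻¹ x⁻¹ ∈ N` for all `x`: `T (g⁻¹ y) = - T y` (replace `h` by `g⁻¹ y`), so
`T (g x g⁻¹ x⁻¹ h) = - T (x g⁻¹ x⁻¹ h) = - T (g⁻¹ x⁻¹ h x) = T (x⁻¹ h x) = T h`.  So for all `i, j`, `a ∈ H i`, `b ∈ H j` the commutator is in `N`: the images of the `H i` in `G / N` commute elementwise and generate, so `G / N` is abelian (`Subgroup.closure` of a commuting set is commutative),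
every commutator is in `N` and has trace `T 1 = 2`: against `Irr`. -/
def S_ab : Prop :=
  ∀ (G K : Type) [Group G] [Field K] (T : G → K), PC T → Irr T → ∀ (ι : Type)
    (H : ι → Subgroup G) (i0 : ι), (⨆ i, H i) = ⊤ →
    (∀ i, i ≠ i0 → ∀ l ∈ H i, (∀ h, T (l * h) = T h) ∨ ∀ h, T (l * h) = - T h) →
    (∀ x ∈ H i0, ∀ y ∈ H i0, ∀ h, T (x * y * x⁻¹ * y⁻¹ * h) = T h) → False

/-- [CZE E4] (about 180 lines) Uses inf, neg, xt, w2, w3, ab, CZ.S_dl, CZ.S_tt, CZ.S_dec, CZD.S_EX, CZD.S_tw, CZD.S_ow.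
Proof. dl, inf, tt for `w` (neg): `δ` and `t : GTree G C.c` (a tree `t.X` with an action of `G`) whose elliptic elements (`t.Ell`, those fixing a vertex) are the `l` with `0 ≤ w (T l)`.  `OntoW` is excluded by ow.  I. Suppose `ν l = 1` for all elliptic `l`.  By xt they are exact.  (U): `u, u' ∈ B`, `u u' = 1`, `T g = u + u'`: `w u ≤ 0`, `w u' ≤ 0` (`SG`, `u, u' ≠ 0`) and
`w u + w u' = 0`, so both are `0`, and `0 ≤ w (T g)` (also if `T g = 0`), so `g` is elliptic and `ν g = 1`.  EX: `OntoW`.  II. Otherwise w2 gives `M, P, P'`; w3: all `l` in edge stabilisers (tt: `EdgeElt w T l g ψ`) have `ν l = 1`, `χ l ^ 2 = 1`, `δ l = 1`.  dec with `C.cnt`: `OntoW`, or `ι', H, i0`.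
In the second case take `l0 ∈ H i0` with `δ l0 = ofAdd 1 ≠ 1` (`m ≥ 2`), `ν l0 = 1`: elliptic, so exact (xt), `χ l0 ^ 2 ≠ 1`.  tw: `T l = 2` implies `T (l h) = T h` for all `h`.  For `l ∈ H i`, `i ≠ i0`: elliptic, `ν l = 1`, exact, `χ l = ±1`; if `χ l = 1`: `T l = 2`; if `χ l = -1`: `T l = -2`, `T (c l) = 2` (neg), so
`T (c l h) = T h` and `T (l h) = - T h`.  For `x, y ∈ H i0`: the commutator `r` is in `H i0`, elliptic, `ν r = 1`, `χ r = 1`, exact, `T r = 2`.  ab: contradiction. -/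
def S_E4 : Prop := I_E4

end Pool.Agent.CZE
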